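import Pool.Agent.Lib.MP_a17b09_nt.OE.Stmts2
import Pool.Agent.Lib.MP_a17b09_nt.BP.Class

/-!
Almost prime values of a quadratic polynomial with the number of prime factors in a residue class:
definitions and the statements of the modules. Each `St...` is a proposition that is proved in a
file of its own.
-/

set_option autoImplicit false

namespace Pool.Agent.Lib.MP_a17b09_nt.AM

open Finset Pool.Agent.Lib.QuadParity Pool.Agent.MP_a17b09_nt.OM Pool.Agent.Lib.MP_a17b09_nt.BP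

/-- The pattern property. For a pair of vectors of determinant `1` with values `n` and `g 0` of the
form `x ^ 2 - Δ y ^ 2` and inner product `s`, one has `G (s + n i) = n (g i)`. -/
def Pat (Δ : ℤ) (m : ℕ) (c : ZMod m) (r : ℕ) (τ : ℤ) : Prop :=
  ∃ Y R : ℕ, 0 < R ∧ ∀ Q : ℕ, 0 < Q → R ∣ Q → (∀ p : ℕ, p.Prime → p ≤ Y → p ∣ Q) →
    ∀ (n : ℕ) (s : ℤ) (g : ℕ → ℤ), 0 < n → n ≡ 1 [MOD Q] → (Q : ℤ) ∣ s →
      (∀ i : ℕ, i ≤ Y → 0 < g i ∧ Gf Δ (s + n * i) = n * g i) →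
      ∃ (i k : ℕ) (l : ℤ), i + k ≤ Y ∧ 0 < k ∧ 0 < l ∧ g i = k * l ∧
        (r : ℤ) ∣ s + n * i + l - τ ∧ 0 < Gf Δ (s + n * i + l) ∧
        l ∣ Gf Δ (s + n * i + l) ∧
        Gf Δ (s + n * i + l) * (k : ℤ) ^ 2 = g i * g (i + k) ∧
        ((Om (Gf Δ (s + n * i + l)) : ℕ) : ZMod m) = c

/-- Module C: the pattern property for odd moduli. -/
def StPatO : Prop := ∀ (Δ : ℤ), ¬ IsSquare Δ → ∀ (m : ℕ), Odd m → ∀ (c : ZMod m) (r : ℕ), 0 < r →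
    ∀ τ : ℤ, Pat Δ m c r τ

/-- Module D: the pattern property for even moduli. -/
def StPatE : Prop := ∀ (a b c : ℤ), 0 < a → IsCoprime a b → ¬ IsSquare (b ^ 2 - 4 * a * c) →
    ∀ (m : ℕ), 0 < m → ∀ (j r : ℕ), (r : ℤ) = 2 * a →
    Pat (b ^ 2 - 4 * a * c) m
      (((Om a + 2 * j : ℕ) : ZMod m) + ((Om (4 * a) : ℕ) : ZMod m)) r b

open Classical in
/-- Module B: lower bound sieve in abstract form, densities at most `D / q`. -/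
def StSvD : Prop := ∀ D : ℕ, ∃ N0 : ℕ, ∀ n : ℕ, N0 ≤ n → ∀ (S : Finset (ℕ × ℕ))
    (bad : ℕ → ℕ × ℕ → Prop) (h : ℕ → ℝ) (X E : ℝ), 0 ≤ X → 0 ≤ E →
    (∀ q : ℕ, q.Prime → D < q → q ≤ 2 ^ (2 ^ n) → 0 ≤ h q ∧ h q ≤ D / q) →
    (∀ P : Finset ℕ, (∀ q ∈ P, q.Prime ∧ D < q ∧ q ≤ 2 ^ (2 ^ n)) →
      |((S.filter (fun s => ∀ q ∈ P, bad q s)).card : ℝ) - X * ∏ q ∈ P, h q| ≤
        E * ∏ q ∈ P, (D * (q : ℝ))) →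
    X ≤ 2 ^ ((2 * D + 1) * n) * (((S.filter (fun s => ∀ q : ℕ, q.Prime → D < q →
        q ≤ 2 ^ (2 ^ n) → ¬ bad q s)).card : ℝ) + E * 2 ^ ((16 * D + 14) * 2 ^ n))

/-- value of the form at `(u, Q l)` -/
def nF (Δ Q l u : ℤ) : ℤ := u ^ 2 - Δ * (Q * l) ^ 2

/-- value of the form at `(x, y) + i (u, Q l)` -/
def gF (Δ Q l u y x i : ℤ) : ℤ := (x + i * u) ^ 2 - Δ * (y + i * (Q * l)) ^ 2

/-- inner product of `(u, Q l)` and `(x, y)` -/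
def sF (Δ Q l u y x : ℤ) : ℤ := u * x - Δ * (Q * l) * y

/-- a balanced pair of vectors of determinant `1` -/
structure Fr (Δ Q L l u y x : ℤ) : Prop where
  hQ : 1 ≤ Q
  hl : 1 ≤ l
  hL : 4 * (|Δ| + 1) * Q ^ 2 + 4 ≤ L
  hu : L * l ≤ u
  hu' : u < L * l + l
  hy : L * l ≤ y
  hy' : y < L * l + l
  h : u * y - Q * l * x = 1

/-- `(Q l) ^ 2 (g i)` as a polynomial in `u` and `y` -/
def wF (Δ Q l u y i : ℤ) : ℤ :=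
  (u * (y + i * (Q * l)) - 1) ^ 2 - Δ * (Q * l) ^ 2 * (y + i * (Q * l)) ^ 2

/-- the condition that `q` divides one of the values -/
def badA (Δ Q l : ℤ) (Y : ℕ) (q : ℕ) (s : ℕ × ℕ) : Prop :=
  (q : ℤ) ∣ ∏ i ∈ Finset.range (Y + 1), wF Δ Q l s.1 s.2 i

/-- Module F1: periodicity. -/
def StPer : Prop := ∀ (Δ Q l : ℤ) (Y : ℕ), Per2 (badA Δ Q l Y)

/-- Module F2: at most `2 (Y + 1) q` bad pairs of residues. -/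
def StNb : Prop := ∀ (Δ Q l : ℤ) (Y q : ℕ), q.Prime → nb2 (badA Δ Q l Y) q ≤ 2 * (Y + 1) * q

open Classical in
/-- the sifted set -/
noncomputable def sftA (Δ Q : ℤ) (Y D L M l n : ℕ) : Finset (ℕ × ℕ) :=
  (pts L M l).filter (fun s => ∀ q : ℕ, q.Prime → D < q → q ≤ 2 ^ (2 ^ n) → ¬ q ∣ M →
    ¬ badA Δ Q l Y q s)

/-- Module G: the sieve for a fixed prime `l`. -/
def StLow : Prop := ∀ D : ℕ, ∃ N0 : ℕ, ∀ n : ℕ, N0 ≤ n →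
    ∀ (Δ Q : ℤ) (Y L M l : ℕ), 2 * (Y + 1) ≤ D → 0 < M → l.Prime → ¬ l ∣ M → 2 ^ (2 ^ n) < l →
    (l : ℝ) / (M : ℝ) ^ 2 ≤ 2 ^ ((2 * D + 1) * n) *
      (((sftA Δ Q Y D L M l n).card : ℝ) + EE l * 2 ^ ((16 * D + 14) * 2 ^ n))

/-- Module E1: identities. -/
def StIdent : Prop := ∀ (Δ Q L l u y x : ℤ), Fr Δ Q L l u y x →
    (∀ i : ℤ, Gf Δ (sF Δ Q l u y x + nF Δ Q l u * i) = nF Δ Q l u * gF Δ Q l u y x i) ∧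
    (∀ i : ℤ, wF Δ Q l u y i = (Q * l) ^ 2 * gF Δ Q l u y x i) ∧
    u + sF Δ Q l u y x * (Q * l) = nF Δ Q l u * y

/-- Module E2: sizes. -/
def StSize : Prop := ∀ (Δ Q L l u y x : ℤ), Fr Δ Q L l u y x → ∀ (Y : ℕ),
    4 * l ^ 2 < nF Δ Q l u ∧ l ≤ sF Δ Q l u y x ∧
    (∀ i : ℤ, 0 ≤ i → i ≤ Y → 0 < gF Δ Q l u y x i ∧
      gF Δ Q l u y x i ≤ 2 * (1 + |Δ|) * (Y + 1) ^ 2 * ((L + 1) ^ 2 * l) ^ 2 ∧
      sF Δ Q l u y x + nF Δ Q l u * i + gF Δ Q l u y x i ≤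
        2 * (1 + |Δ|) * (Y + 1) ^ 2 * ((L + 1) ^ 2 * l) ^ 2)

/-- Module E3: uniqueness. -/
def StUniq : Prop := ∀ (Δ Q L l u y x l' u' y' x' X : ℤ), Fr Δ Q L l u y x →
    Fr Δ Q L l' u' y' x' → nF Δ Q l u = nF Δ Q l' u' →
    sF Δ Q l u y x = sF Δ Q l' u' y' x' → l ≤ X → l' ≤ X → X ≤ 2 * l → Prime l → Prime l' →
    l = l' ∧ u = u' ∧ y = y'

/-- what a sifted point gives -/
def StFacts : Prop := ∀ (Δ : ℤ) (Y D E Q L M l n : ℕ), ¬ IsSquare Δ → 0 < Q → M = Q ^ 2 →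
    2 * (Y + 1) ≤ D → Y ^ 2 + Δ.natAbs < 2 ^ E →
    (∀ p : ℕ, p.Prime → p ≤ D → p ^ E ∣ Q) → (∀ p : ℕ, p.Prime → p ∣ Q → p ≤ D) →
    4 * (|Δ| + 1) * (Q : ℤ) ^ 2 + 4 ≤ (L : ℤ) → l.Prime → ¬ l ∣ M →
    ∀ s : ℕ × ℕ, s ∈ sftA Δ Q Y D L M l n → ∃ x : ℤ, Fr Δ Q L l s.1 s.2 x ∧ (Q : ℤ) ∣ x ∧
      (∀ i : ℕ, i ≤ Y → ∀ p : ℕ, p.Prime → (p : ℤ) ∣ gF Δ Q l s.1 s.2 x i →
        p ≤ D ∨ 2 ^ (2 ^ n) < p) ∧
      (∀ i : ℕ, i ≤ Y → ∀ p : ℕ, p.Prime → p ≤ D → ¬ (p : ℤ) ^ E ∣ gF Δ Q l s.1 s.2 x i)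

open Classical in
/-- the good arguments up to `N` -/
noncomputable def goodA (a b c : ℤ) (m : ℕ) (ρ : ZMod m) (t0 h C N : ℕ) : Finset ℕ :=
  (Finset.Icc 1 N).filter (fun t : ℕ => t ≡ t0 [MOD h] ∧ 0 < a * (t : ℤ) ^ 2 + b * t + c ∧
    Om (a * (t : ℤ) ^ 2 + b * t + c) ≤ C ∧
    ((Om (a * (t : ℤ) ^ 2 + b * t + c) : ℕ) : ZMod m) = ρ ∧
    ∀ p : ℕ, p.Prime → (p : ℤ) ∣ a * (t : ℤ) ^ 2 + b * t + c →
      p ≤ C ∨ (N : ℝ) ^ (1 / (C : ℝ)) < p)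

/-- from the pattern property to the count -/
def StEndA : Prop := ∀ (a b c : ℤ), 0 < a → ¬ IsSquare (b ^ 2 - 4 * a * c) →
    ∀ (m : ℕ) (ρ : ZMod m) (t0 h r : ℕ), 0 < h → (r : ℤ) = 2 * a * h →
    Pat (b ^ 2 - 4 * a * c) m (ρ + ((Om (4 * a) : ℕ) : ZMod m)) r (2 * a * t0 + b) →
    ∃ C : ℕ, 0 < C ∧ ∃ κ : ℝ, 0 < κ ∧ ∃ N₁ : ℕ, ∀ N : ℕ, N₁ ≤ N →
      κ * ((N : ℝ) / (Real.log N) ^ C) ≤ ((goodA a b c m ρ t0 h C N).card : ℝ)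

end Pool.Agent.Lib.MP_a17b09_nt.AM
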