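import Mathlib
import Pool.Agent.Lib.MP_a17b09_nt.AM.Stmts

/-!
What the sifted points give.
-/

set_option autoImplicit false

namespace Pool.Agent.Lib.MP_a17b09_nt.AM

open Finset Pool.Agent.Lib.QuadParity Pool.Agent.MP_a17b09_nt.OM Pool.Agent.Lib.MP_a17b09_nt.BP

theorem wF_eq (Δ Q l u y x i : ℤ) (h : u * y - Q * l * x = 1) :
    wF Δ Q l u y i = (Q * l) ^ 2 * gF Δ Q l u y x i := by
  unfold wF gF
  have e : u * (y + i * (Q * l)) - 1 = Q * l * (x + i * u) := by linear_combination h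
  rw [e]
  ring

theorem stFacts_5 : StFacts := by
  intro Δ Y D E Q L M l n hΔ hQ hM hYD hE hpE hpD hL hl hlM s hs
  classical
  unfold sftA at hs
  rw [Finset.mem_filter] at hs
  obtain ⟨hs1, hs2⟩ := hs
  unfold pts at hs1
  rw [Finset.mem_filter, Finset.mem_product, Finset.mem_Ico, Finset.mem_Ico] at hs1
  obtain ⟨⟨⟨a1, a2⟩, ⟨a3, a4⟩⟩, ⟨a5, a6⟩, a7⟩ := hs1
  obtain ⟨u, hu⟩ : ∃ u : ℤ, u = (s.1 : ℤ) := ⟨_, rfl⟩
  obtain ⟨y, hy⟩ : ∃ y : ℤ, y = (s.2 : ℤ) := ⟨_, rfl⟩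
  have hM' : (M : ℤ) = (Q : ℤ) ^ 2 := by rw [hM]; push_cast; rfl
  have m1 : (M : ℤ) ∣ u - 1 := by
    have := (Nat.modEq_iff_dvd.1 a5.symm)
    rw [hu]; push_cast at this; exact this
  have m2 : (M : ℤ) ∣ y - 1 := by
    have := (Nat.modEq_iff_dvd.1 a6.symm)
    rw [hy]; push_cast at this; exact this
  have m4 : (Q : ℤ) ^ 2 ∣ u * y - 1 := by
    rw [← hM']
    have : u * y - 1 = (u - 1) * y + (y - 1) := by ring
    rw [this]
    exact dvd_add (m1.mul_right y) m2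
  have m5 : (l : ℤ) ∣ u * y - 1 := by
    haveI : NeZero l := ⟨hl.ne_zero⟩
    rw [← ZMod.intCast_zmod_eq_zero_iff_dvd]
    push_cast
    rw [hu, hy]
    push_cast
    rw [a7, sub_self]
  have cop : IsCoprime ((Q : ℤ) ^ 2) (l : ℤ) := by
    rw [← hM']
    exact (Nat.isCoprime_iff_coprime.2 ((Nat.Prime.coprime_iff_not_dvd hl).2 hlM)).symm
  obtain ⟨w, hw⟩ := cop.mul_dvd m4 m5
  have hux : u * y - Q * l * (Q * w) = 1 := by linear_combination hw
  have qu : (Q : ℤ) ∣ u - 1 := by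
    refine dvd_trans ?_ m1
    rw [hM']; exact Dvd.intro _ (sq _).symm
  have qy : (Q : ℤ) ∣ y - 1 := by
    refine dvd_trans ?_ m2
    rw [hM']; exact Dvd.intro _ (sq _).symm
  refine ⟨Q * w, ?_, Dvd.intro _ rfl, ?_, ?_⟩
  · rw [← hu, ← hy]
    refine ⟨by exact_mod_cast hQ, by exact_mod_cast hl.one_lt.le, hL, ?_, ?_, ?_, ?_, hux⟩
    · rw [hu]; exact_mod_cast a1
    · rw [hu]; exact_mod_cast a2
    · rw [hy]; exact_mod_cast a3
    · rw [hy]; exact_mod_cast a4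
  · intro i hi p hp hpg
    by_contra hcon
    push Not at hcon
    obtain ⟨h1, h2⟩ := hcon
    apply hs2 p hp h1 h2
    · intro hpM
      rw [hM] at hpM
      exact absurd (hpD p hp (hp.dvd_of_dvd_pow hpM)) (by omega)
    · unfold badA
      have h3 : wF Δ Q l s.1 s.2 (i : ℤ) ∣
          ∏ i ∈ Finset.range (Y + 1), wF Δ Q l s.1 s.2 (i : ℤ) :=
        Finset.dvd_prod_of_mem (fun i : ℕ => wF Δ Q l s.1 s.2 (i : ℤ))
          (Finset.mem_range.2 (by omega))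
      refine dvd_trans ?_ h3
      rw [← hu, ← hy, wF_eq Δ Q l u y (Q * w) i hux, hu, hy]
      exact hpg.mul_left _
  · intro i hi p hp hpD' hdvd
    have hQE := hpE p hp hpD'
    have hQE' : (p : ℤ) ^ E ∣ (Q : ℤ) := by exact_mod_cast hQE
    have h1 : (Q : ℤ) ∣ gF Δ Q l s.1 s.2 (Q * w) i - ((i : ℤ) ^ 2 - Δ) := by
      rw [← hu, ← hy]
      obtain ⟨u', hu'⟩ := qu
      obtain ⟨y', hy'⟩ := qy
      have e1 : u = 1 + Q * u' := by linarith
      have e2 : y = 1 + Q * y' := by linarith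
      unfold gF
      rw [e1, e2]
      exact ⟨(w + i * u') * (2 * i + Q * (w + i * u')) -
        Δ * ((y' + i * l) * (2 + Q * (y' + i * l))), by ring⟩
    have h2 : (p : ℤ) ^ E ∣ (i : ℤ) ^ 2 - Δ := by
      have h3 := (dvd_sub_right hdvd).1 (hQE'.trans h1)
      exact h3
    have h4 : (i : ℤ) ^ 2 - Δ ≠ 0 := by
      intro h0
      apply hΔ
      exact ⟨i, by linarith [h0, sq (i : ℤ)]⟩
    have h5 : (p : ℤ) ^ E ≤ |(i : ℤ) ^ 2 - Δ| := Int.le_of_dvd (abs_pos.2 h4) ((dvd_abs _ _).2 h2)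
    have h6 : (2 : ℤ) ^ E ≤ (p : ℤ) ^ E := by
      apply pow_le_pow_left₀ (by norm_num)
      exact_mod_cast hp.two_le
    have h7 : |(i : ℤ) ^ 2 - Δ| ≤ (Y : ℤ) ^ 2 + Δ.natAbs := by
      have h8 : |(i : ℤ) ^ 2 - Δ| ≤ |(i : ℤ) ^ 2| + |Δ| := abs_sub _ _
      have h9 : |(i : ℤ) ^ 2| ≤ (Y : ℤ) ^ 2 := by
        rw [abs_of_nonneg (by positivity)]
        apply pow_le_pow_left₀ (by positivity)
        exact_mod_cast hi
      rw [Int.natCast_natAbs]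
      linarith
    have h10 : ((Y : ℤ) ^ 2 + Δ.natAbs) < 2 ^ E := by exact_mod_cast hE
    linarith

end Pool.Agent.Lib.MP_a17b09_nt.AM
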