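import Pool.Agent.Lib.MP_a17b09_nt.AM.Stmts

/-!
Choice of the sieving level and the error term.
-/

set_option autoImplicit false

namespace Pool.Agent.Lib.MP_a17b09_nt.AM

open Finset Filter Topology Pool.Agent.Lib.MP_a17b09_nt.BP

theorem choose_nA (A : ℕ) (hA : 71 ≤ A) (N0 C0 : ℕ) : ∃ X1 : ℕ, 3 ≤ X1 ∧ ∀ x : ℕ, X1 ≤ x →
    ∃ n : ℕ, N0 ≤ n ∧ 2 ^ (A * 2 ^ n) ≤ x ∧ x < 2 ^ (2 * A * 2 ^ n) ∧
      (2 : ℝ) ^ n ≤ Real.log x ∧ C0 ≤ 2 ^ (2 * 2 ^ n) := by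
  obtain ⟨K, hK⟩ : ∃ K : ℕ, K = N0 + C0 + 1 := ⟨_, rfl⟩
  refine ⟨2 ^ (A * 2 ^ K), ?_, ?_⟩
  · have h1 : 2 ^ 2 ≤ 2 ^ (A * 2 ^ K) := by
      apply Nat.pow_le_pow_right (by norm_num)
      have : 1 ≤ 2 ^ K := Nat.one_le_two_pow
      nlinarith
    omega
  intro x hx
  have hx0 : x ≠ 0 := by
    have : 0 < 2 ^ (A * 2 ^ K) := by positivity
    omega
  have hA0 : 0 < A := by omega
  have h1 : A * 2 ^ K ≤ Nat.log 2 x := (Nat.le_log_iff_pow_le (by norm_num) hx0).2 hx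
  have h2 : 2 ^ K ≤ Nat.log 2 x / A := by
    rw [Nat.le_div_iff_mul_le hA0, mul_comm]; exact h1
  have hy0 : Nat.log 2 x / A ≠ 0 := by
    have : 0 < 2 ^ K := by positivity
    omega
  obtain ⟨n, hn⟩ : ∃ n : ℕ, n = Nat.log 2 (Nat.log 2 x / A) := ⟨_, rfl⟩
  have h3 : K ≤ n := by rw [hn]; exact (Nat.le_log_iff_pow_le (by norm_num) hy0).2 h2
  have h4 : 2 ^ n ≤ Nat.log 2 x / A := by rw [hn]; exact Nat.pow_log_le_self 2 hy0
  have h5 : Nat.log 2 x / A < 2 ^ (n + 1) := by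
    rw [hn]; exact Nat.lt_pow_succ_log_self (by norm_num) _
  have h6 : A * 2 ^ n ≤ Nat.log 2 x := by
    rw [Nat.le_div_iff_mul_le hA0] at h4
    rw [mul_comm]; exact h4
  have h7 : Nat.log 2 x < 2 * A * 2 ^ n := by
    rw [Nat.div_lt_iff_lt_mul hA0, pow_succ] at h5
    calc Nat.log 2 x < 2 ^ n * 2 * A := h5
      _ = _ := by ring
  have hnn : n < 2 ^ n := Nat.lt_two_pow_self
  refine ⟨n, by omega, ?_, ?_, ?_, ?_⟩
  · calc 2 ^ (A * 2 ^ n) ≤ 2 ^ (Nat.log 2 x) := Nat.pow_le_pow_right (by norm_num) h6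
      _ ≤ x := Nat.pow_log_le_self 2 hx0
  · calc x < 2 ^ (Nat.log 2 x + 1) := Nat.lt_pow_succ_log_self (by norm_num) x
      _ ≤ 2 ^ (2 * A * 2 ^ n) := Nat.pow_le_pow_right (by norm_num) h7
  · have h8 : (2 : ℝ) ^ (A * 2 ^ n) ≤ x := by
      have : 2 ^ (A * 2 ^ n) ≤ x := by
        calc 2 ^ (A * 2 ^ n) ≤ 2 ^ (Nat.log 2 x) := Nat.pow_le_pow_right (by norm_num) h6
          _ ≤ x := Nat.pow_log_le_self 2 hx0
      exact_mod_cast this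
    have h9 := Real.log_le_log (by positivity) h8
    rw [Real.log_pow] at h9
    push_cast at h9
    have h10 := Real.log_two_gt_d9
    have h11 : (0 : ℝ) < 2 ^ n := by positivity
    have h12 : (71 : ℝ) ≤ A := by exact_mod_cast hA
    have h13 : (1 : ℝ) ≤ A * Real.log 2 := by nlinarith
    calc (2 : ℝ) ^ n = 1 * 2 ^ n := by ring
      _ ≤ (A * Real.log 2) * 2 ^ n := mul_le_mul_of_nonneg_right h13 h11.le
      _ = A * 2 ^ n * Real.log 2 := by ring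
      _ ≤ Real.log x := h9
  · have h8 : 2 * 2 ^ n < 2 ^ (2 * 2 ^ n) := Nat.lt_two_pow_self
    omega

theorem log_smallA (j : ℕ) (K : ℝ) : ∃ l1 : ℕ, ∀ l : ℕ, l1 ≤ l →
    K * (Real.log l) ^ j ≤ (l : ℝ) ^ (1 / 20 : ℝ) := by
  have h1 := (isLittleO_log_rpow_rpow_atTop (j : ℝ) (show (0 : ℝ) < 1 / 20 by norm_num))
  have h2 : ∀ᶠ x : ℝ in atTop, ‖Real.log x ^ (j : ℝ)‖ ≤ (1 / (|K| + 1)) * ‖x ^ (1 / 20 : ℝ)‖ :=
    h1.bound (by positivity)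
  have h3 := (tendsto_natCast_atTop_atTop (R := ℝ)).eventually h2
  obtain ⟨l1, hl1⟩ := Filter.eventually_atTop.1 h3
  refine ⟨l1 + 1, ?_⟩
  intro l hl
  have h4 := hl1 l (by omega)
  have hlpos : (1 : ℝ) ≤ l := by exact_mod_cast (by omega : 1 ≤ l)
  have hlog : 0 ≤ Real.log l := Real.log_nonneg hlpos
  rw [Real.rpow_natCast, Real.norm_of_nonneg (by positivity),
    Real.norm_of_nonneg (by positivity)] at h4
  have h6 : (|K| + 1) * Real.log l ^ j ≤ (l : ℝ) ^ (1 / 20 : ℝ) := by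
    rw [one_div_mul_eq_div, le_div_iff₀ (by positivity)] at h4
    linarith
  have h7 : K * Real.log l ^ j ≤ (|K| + 1) * Real.log l ^ j := by
    apply mul_le_mul_of_nonneg_right _ (by positivity)
    have := le_abs_self K
    linarith
  linarith

/-- the error term is negligible -/
theorem error_smallA (D M : ℕ) (hM : 0 < M) : ∃ l1 : ℕ, ∀ l n : ℕ, l1 ≤ l →
    2 ^ ((80 * D + 71) * 2 ^ n) ≤ l → (2 : ℝ) ^ n ≤ Real.log l →
    (2 : ℝ) ^ ((2 * D + 1) * n) * (EE l * 2 ^ ((16 * D + 14) * 2 ^ n)) ≤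
      (l : ℝ) / (2 * (M : ℝ) ^ 2) := by
  obtain ⟨l1, hl1⟩ := log_smallA (2 * D + 3) (78 * (M : ℝ) ^ 2)
  refine ⟨l1 + 3, ?_⟩
  intro l n hl h361 h2n
  have h1 := hl1 l (by omega)
  have hl3 : (3 : ℝ) ≤ l := by exact_mod_cast (by omega : 3 ≤ l)
  have hl0 : (0 : ℝ) < l := by linarith
  obtain ⟨y, hy⟩ : ∃ y : ℝ, y = Real.log l := ⟨_, rfl⟩
  have hy1 : 1 ≤ y := by
    rw [hy, Real.le_log_iff_exp_le hl0]
    have := Real.exp_one_lt_d9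
    linarith
  rw [← hy] at h1 h2n
  have e1 : (2 : ℝ) ^ ((2 * D + 1) * n) ≤ y ^ (2 * D + 1) := by
    rw [mul_comm, pow_mul]
    exact pow_le_pow_left₀ (by positivity) h2n _
  have e2 : (2 : ℝ) ^ ((16 * D + 14) * 2 ^ n) ≤ (l : ℝ) ^ (1 / 5 : ℝ) := by
    have h3 : ((2 : ℝ) ^ ((16 * D + 14) * 2 ^ n)) ^ 5 ≤ l := by
      rw [← pow_mul]
      have h30 : (2 : ℝ) ^ ((16 * D + 14) * 2 ^ n * 5) ≤ (2 : ℝ) ^ ((80 * D + 71) * 2 ^ n) := by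
        apply pow_le_pow_right₀ (by norm_num)
        have : (16 * D + 14) * 2 ^ n * 5 = (80 * D + 70) * 2 ^ n := by ring
        rw [this]
        apply Nat.mul_le_mul_right
        omega
      refine h30.trans ?_
      exact_mod_cast h361
    obtain ⟨g, hg⟩ : ∃ g : ℝ, g = (2 : ℝ) ^ ((16 * D + 14) * 2 ^ n) := ⟨_, rfl⟩
    have hg0 : 0 ≤ g := by rw [hg]; positivity
    rw [← hg] at h3 ⊢
    have h4 : g = (g ^ 5) ^ (1 / 5 : ℝ) := by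
      rw [← Real.rpow_natCast, ← Real.rpow_mul hg0]
      norm_num
    rw [h4]
    exact Real.rpow_le_rpow (by positivity) h3 (by norm_num)
  have hl34 : 1 ≤ (l : ℝ) ^ (3 / 4 : ℝ) := Real.one_le_rpow (by linarith) (by norm_num)
  have e3 : EE l ≤ 39 * ((l : ℝ) ^ (3 / 4 : ℝ) * y ^ 2) := by
    unfold EE
    rw [← hy]
    have h5 : (3 + y) ^ 2 ≤ 16 * y ^ 2 := by nlinarith
    have h6 : 1 ≤ y ^ 2 := by nlinarith
    have h7 : 1 ≤ (l : ℝ) ^ (3 / 4 : ℝ) * y ^ 2 := by nlinarith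
    have h8 : (l : ℝ) ^ (3 / 4 : ℝ) * (3 + y) ^ 2 ≤ (l : ℝ) ^ (3 / 4 : ℝ) * (16 * y ^ 2) :=
      mul_le_mul_of_nonneg_left h5 (by linarith)
    nlinarith
  have hEE := EE_nonneg l
  calc (2 : ℝ) ^ ((2 * D + 1) * n) * (EE l * 2 ^ ((16 * D + 14) * 2 ^ n)) ≤
      y ^ (2 * D + 1) * ((39 * ((l : ℝ) ^ (3 / 4 : ℝ) * y ^ 2)) * (l : ℝ) ^ (1 / 5 : ℝ)) := by
        apply mul_le_mul e1 _ (by positivity) (by positivity)
        apply mul_le_mul e3 e2 (by positivity) (by positivity)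
    _ = 39 * y ^ (2 * D + 3) * ((l : ℝ) ^ (3 / 4 : ℝ) * (l : ℝ) ^ (1 / 5 : ℝ)) := by
        rw [show 2 * D + 3 = (2 * D + 1) + 2 by ring, pow_add]; ring
    _ = 39 * y ^ (2 * D + 3) * (l : ℝ) ^ (19 / 20 : ℝ) := by
        rw [← Real.rpow_add hl0]; norm_num
    _ ≤ ((l : ℝ) ^ (1 / 20 : ℝ) / (2 * (M : ℝ) ^ 2)) * (l : ℝ) ^ (19 / 20 : ℝ) := by
        apply mul_le_mul_of_nonneg_right _ (by positivity)
        have hMr : (0 : ℝ) < M := by exact_mod_cast hM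
        rw [le_div_iff₀ (by positivity)]
        linarith
    _ = (l : ℝ) / (2 * (M : ℝ) ^ 2) := by
        rw [div_mul_eq_mul_div, ← Real.rpow_add hl0]
        norm_num

end Pool.Agent.Lib.MP_a17b09_nt.AM
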