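import Pool.Agent.Lib.MP_a17b09_nt.AM.Count
import Pool.Agent.Lib.MP_a17b09_nt.AM.Asym
import Pool.Agent.Lib.QuadThree.PrimesDyadic

/-!
From the pattern property to the lower bound for the number of good arguments.
-/

set_option autoImplicit false

namespace Pool.Agent.Lib.MP_a17b09_nt.AM

open Finset Filter Topology Pool.Agent.Lib.QuadParity Pool.Agent.MP_a17b09_nt.OM
  Pool.Agent.Lib.MP_a17b09_nt.BP

theorem sq_le_fourA (x : ℕ) (h : 1 ≤ x) : (x + 1) ^ 2 ≤ 4 * x ^ 2 := by nlinarith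

theorem stEndA_99 (hLow : StLow) (hF : StFacts) : StEndA := by
  classical
  intro a b c ha hD m ρ t0 h r hh hr hPat
  obtain ⟨Δ, hΔd⟩ : ∃ Δ : ℤ, Δ = b ^ 2 - 4 * a * c := ⟨_, rfl⟩
  rw [← hΔd] at hD hPat
  obtain ⟨Y, R, hR, hPY⟩ := hPat
  obtain ⟨D, hDd⟩ : ∃ D : ℕ, D = 2 * (Y + 1) + R := ⟨_, rfl⟩
  obtain ⟨E, hEd⟩ : ∃ E : ℕ, E = Y ^ 2 + Δ.natAbs + 1 := ⟨_, rfl⟩
  obtain ⟨Q, hQd⟩ : ∃ Q : ℕ, Q = (Nat.factorial D) ^ E := ⟨_, rfl⟩
  obtain ⟨M, hMd⟩ : ∃ M : ℕ, M = Q ^ 2 := ⟨_, rfl⟩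
  have hE0 : E ≠ 0 := by omega
  have hQpos : 0 < Q := by rw [hQd]; positivity
  have hM0 : 0 < M := by rw [hMd]; positivity
  have hE2 : Y ^ 2 + Δ.natAbs < 2 ^ E := by
    have : E < 2 ^ E := Nat.lt_two_pow_self
    omega
  have hRQ : R ∣ Q := by
    rw [hQd]
    exact (Nat.dvd_factorial hR (by omega)).trans (dvd_pow_self _ hE0)
  have hpQ : ∀ p : ℕ, p.Prime → p ≤ D → p ^ E ∣ Q := by
    intro p hp hpD
    rw [hQd]
    exact pow_dvd_pow_of_dvd (Nat.dvd_factorial hp.pos hpD) E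
  have hpQ' : ∀ p : ℕ, p.Prime → p ∣ Q → p ≤ D := by
    intro p hp hd
    rw [hQd] at hd
    exact hp.dvd_factorial.1 (hp.dvd_of_dvd_pow hd)
  have hPQ : PatQ Δ m (ρ + ((Om (4 * a) : ℕ) : ZMod m)) r (2 * a * t0 + b) Y Q :=
    hPY Q hQpos hRQ (fun p hp hpY => (dvd_pow_self p hE0).trans (hpQ p hp (by omega)))
  obtain ⟨L, hLd⟩ : ∃ L : ℕ, L = (4 * (|Δ| + 1) * (Q : ℤ) ^ 2 + 4).natAbs := ⟨_, rfl⟩
  have hL : (L : ℤ) = 4 * (|Δ| + 1) * (Q : ℤ) ^ 2 + 4 := by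
    rw [hLd]; exact Int.natAbs_of_nonneg (by positivity)
  obtain ⟨CS, hCSd⟩ : ∃ CS : ℕ,
      CS = (2 * (1 + |Δ|) * ((Y : ℤ) + 1) ^ 2 * (((L : ℤ) + 1) ^ 2 * 2) ^ 2).natAbs := ⟨_, rfl⟩
  have hCS : (CS : ℤ) = 2 * (1 + |Δ|) * ((Y : ℤ) + 1) ^ 2 * (((L : ℤ) + 1) ^ 2 * 2) ^ 2 := by
    rw [hCSd]; exact Int.natAbs_of_nonneg (by positivity)
  obtain ⟨C0, hC0d⟩ : ∃ C0 : ℕ, C0 = CS + b.natAbs := ⟨_, rfl⟩
  have hCSpos : 0 < CS := by
    have : (0 : ℤ) < CS := by rw [hCS]; positivity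
    exact_mod_cast this
  have hC0pos : 0 < C0 := by omega
  obtain ⟨A, hA⟩ : ∃ A : ℕ, A = 80 * D + 71 := ⟨_, rfl⟩
  obtain ⟨N0, hN0⟩ := hLow D
  obtain ⟨x0, hx02, hx0⟩ := Pool.Agent.Lib.QuadThree.primes_dyadic M hM0 1 (Nat.coprime_one_left M)
  obtain ⟨l1, hl1⟩ := error_smallA D M hM0
  rw [← hA] at hl1
  obtain ⟨X1, hX13, hX1⟩ := choose_nA A (by omega) N0 (4 * C0 + CS)
  obtain ⟨C, hC⟩ : ∃ C : ℕ, C = 2 * (D * E + (4 * A + 1)) + D + (4 * A + 2) + (2 * D + 2) := ⟨_, rfl⟩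
  have hCpos : 0 < C := by rw [hC]; exact Nat.add_pos_right _ (Nat.succ_pos _)
  obtain ⟨J, hJ⟩ : ∃ J : ℕ, J = (Y + 1) * (Y + 1) * (2 ^ Om (4 * a) * 2 ^ C) := ⟨_, rfl⟩
  have hJpos : 0 < J := by rw [hJ]; positivity
  have hJr : (0 : ℝ) < J := by exact_mod_cast hJpos
  obtain ⟨φ, hφ⟩ : ∃ φ : ℝ, φ = (Nat.totient M : ℝ) := ⟨_, rfl⟩
  have hφ0 : 0 < φ := by rw [hφ]; exact_mod_cast Nat.totient_pos.2 hM0
  have hMr : (0 : ℝ) < M := by exact_mod_cast hM0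
  have hC0r : (0 : ℝ) < C0 := by exact_mod_cast hC0pos
  refine ⟨C, hCpos, 1 / (16 * C0 * φ * (M : ℝ) ^ 2 * J), by positivity,
    C0 * (X1 + x0 + l1 + M + 2 * a.natAbs + b.natAbs + 3) ^ 2, ?_⟩
  intro N hN
  -- choice of x
  obtain ⟨x, hx⟩ : ∃ x : ℕ, x = Nat.sqrt (N / C0) := ⟨_, rfl⟩
  have hxlow : X1 + x0 + l1 + M + 2 * a.natAbs + b.natAbs + 3 ≤ x := by
    rw [hx, Nat.le_sqrt', Nat.le_div_iff_mul_le hC0pos]
    rw [mul_comm]; exact hN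
  have hxup : C0 * x ^ 2 ≤ N := by
    have h1 : x ^ 2 ≤ N / C0 := by rw [hx]; exact Nat.sqrt_le' _
    calc C0 * x ^ 2 ≤ C0 * (N / C0) := Nat.mul_le_mul_left _ h1
      _ ≤ N := Nat.mul_div_le N C0
  have hNup : N < C0 * (4 * x ^ 2) := by
    have h1 : N / C0 < (x + 1) ^ 2 := by
      have := Nat.lt_succ_sqrt' (N / C0)
      rw [hx]; exact this
    have h2 : N < (x + 1) ^ 2 * C0 := (Nat.div_lt_iff_lt_mul hC0pos).1 h1
    have h3 : (x + 1) ^ 2 ≤ 4 * x ^ 2 := sq_le_fourA x (by omega)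
    calc N < (x + 1) ^ 2 * C0 := h2
      _ ≤ (4 * x ^ 2) * C0 := Nat.mul_le_mul_right _ h3
      _ = _ := by ring
  obtain ⟨n, hn0, hn1, hn2, hn3, hn4⟩ := hX1 x (by omega)
  obtain ⟨z, hz⟩ : ∃ z : ℕ, z = 2 ^ n := ⟨_, rfl⟩
  rw [← hz] at hn1 hn2 hn4
  have hz1 : 1 ≤ z := by rw [hz]; exact Nat.one_le_two_pow
  have hx2 : x ^ 2 < 2 ^ (4 * A * z) := by
    calc x ^ 2 < (2 ^ (2 * A * z)) ^ 2 := Nat.pow_lt_pow_left hn2 (by norm_num)
      _ = 2 ^ (4 * A * z) := by rw [← pow_mul]; congr 1; ring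
  have hcast : 2 * (1 + |Δ|) * ((Y : ℤ) + 1) ^ 2 * (((L : ℤ) + 1) ^ 2 * (2 * x)) ^ 2 =
      ((CS * x ^ 2 : ℕ) : ℤ) := by
    push_cast
    rw [hCS]; ring
  have hB : 2 * (1 + |Δ|) * ((Y : ℤ) + 1) ^ 2 * (((L : ℤ) + 1) ^ 2 * (2 * x)) ^ 2 <
      ((2 ^ (2 ^ n)) ^ ((4 * A + 1) + 1) : ℕ) := by
    rw [hcast, ← hz]
    have e2 : CS * x ^ 2 < (2 ^ z) ^ ((4 * A + 1) + 1) := by
      calc CS * x ^ 2 ≤ 2 ^ (2 * z) * x ^ 2 := Nat.mul_le_mul_right _ (by omega)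
        _ < 2 ^ (2 * z) * 2 ^ (4 * A * z) := Nat.mul_lt_mul_of_pos_left hx2 (by positivity)
        _ = (2 ^ z) ^ ((4 * A + 1) + 1) := by rw [← pow_add, ← pow_mul]; congr 1; ring
    exact_mod_cast e2
  have hNN : 2 * (1 + |Δ|) * ((Y : ℤ) + 1) ^ 2 * (((L : ℤ) + 1) ^ 2 * (2 * x)) ^ 2 + |b| ≤
      (N : ℤ) := by
    rw [hcast]
    have e1 : |b| = (b.natAbs : ℤ) := (Int.natCast_natAbs b).symm
    rw [e1]
    have e2 : CS * x ^ 2 + b.natAbs ≤ N := by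
      have h1 : b.natAbs * 1 ≤ b.natAbs * x ^ 2 :=
        Nat.mul_le_mul_left _ (Nat.one_le_pow _ _ (by omega))
      have h2 : C0 * x ^ 2 = CS * x ^ 2 + b.natAbs * x ^ 2 := by rw [hC0d]; ring
      omega
    exact_mod_cast e2
  have hzz : (N : ℝ) ^ (1 / (C : ℝ)) ≤ (2 : ℝ) ^ (2 ^ n) := by
    have e1 : N ≤ (2 ^ z) ^ C := by
      have e2 : N < (2 ^ z) ^ (4 * A + 2) := by
        calc N < C0 * (4 * x ^ 2) := hNup
          _ = (4 * C0) * x ^ 2 := by ring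
          _ ≤ 2 ^ (2 * z) * x ^ 2 := Nat.mul_le_mul_right _ (by omega)
          _ < 2 ^ (2 * z) * 2 ^ (4 * A * z) := Nat.mul_lt_mul_of_pos_left hx2 (by positivity)
          _ = (2 ^ z) ^ (4 * A + 2) := by rw [← pow_add, ← pow_mul]; congr 1; ring
      exact e2.le.trans (Nat.pow_le_pow_right Nat.one_le_two_pow (by omega))
    have e2 : (N : ℝ) ≤ ((2 : ℝ) ^ z) ^ C := by exact_mod_cast e1
    rw [← hz]
    calc (N : ℝ) ^ (1 / (C : ℝ)) ≤ (((2 : ℝ) ^ z) ^ C) ^ (1 / (C : ℝ)) :=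
          Real.rpow_le_rpow (by positivity) e2 (by positivity)
      _ = (2 : ℝ) ^ z := by
          rw [one_div]
          exact Real.pow_rpow_inv_natCast (by positivity) (by omega)
  have hXab : 2 * a + |b| ≤ (x : ℤ) := by
    have e1 : |b| = (b.natAbs : ℤ) := (Int.natCast_natAbs b).symm
    have e2 : a = (a.natAbs : ℤ) := (Int.natAbs_of_nonneg ha.le).symm
    rw [e1]
    omega
  have hcount := count_mainA hF a b c ha Δ hΔd hD m ρ t0 h r hr Y D E Q M L n x N (4 * A + 1) C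
    hPQ hQpos hMd (by omega) hE2 hpQ hpQ' hL.ge hXab (by omega) hB hNN (by omega) (by omega) hzz
  rw [← hJ] at hcount
  -- lower bound for the number of points
  have hx3 : (3 : ℝ) ≤ x := by exact_mod_cast (by omega : 3 ≤ x)
  have hxpos : (0 : ℝ) < x := by linarith
  have hlogx : 1 ≤ Real.log x := by
    rw [Real.le_log_iff_exp_le hxpos]
    have := Real.exp_one_lt_d9
    linarith
  have hsft : ∀ l ∈ (Finset.Ioc x (2 * x)).filter (fun p => p.Prime ∧ p ≡ 1 [MOD M]),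
      (x : ℝ) / (2 * (M : ℝ) ^ 2 * (Real.log x) ^ (2 * D + 1)) ≤
        ((sftA Δ Q Y D L M l n).card : ℝ) := by
    intro l hl
    rw [mem_filter, Finset.mem_Ioc] at hl
    obtain ⟨⟨hl2, hl3⟩, hlp, hlm⟩ := hl
    have hlr : (x : ℝ) ≤ l := by exact_mod_cast hl2.le
    have hlpos : (0 : ℝ) < l := by linarith
    have h1 := hN0 n hn0 Δ Q Y L M l (by omega) hM0 hlp (by
        intro h
        have := Nat.le_of_dvd hM0 h
        omega) (by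
        rw [← hz]
        have : 2 ^ z ≤ 2 ^ (A * z) := by
          apply Nat.pow_le_pow_right (by norm_num)
          exact Nat.le_mul_of_pos_left _ (by omega)
        omega)
    have h2 := hl1 l n (by omega) (by rw [← hz]; omega) (by
      refine hn3.trans ?_
      exact Real.log_le_log hxpos hlr)
    have h3 : (2 : ℝ) ^ ((2 * D + 1) * n) ≤ (Real.log x) ^ (2 * D + 1) := by
      rw [mul_comm, pow_mul]
      exact pow_le_pow_left₀ (by positivity) hn3 _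
    have h4 : (l : ℝ) / (2 * (M : ℝ) ^ 2) ≤
        2 ^ ((2 * D + 1) * n) * ((sftA Δ Q Y D L M l n).card : ℝ) := by
      have h5 : (l : ℝ) / (M : ℝ) ^ 2 = l / (2 * (M : ℝ) ^ 2) + l / (2 * (M : ℝ) ^ 2) := by
        field_simp; ring
      rw [h5, mul_add] at h1
      linarith
    have h6 : (x : ℝ) / (2 * (M : ℝ) ^ 2) ≤
        (Real.log x) ^ (2 * D + 1) * ((sftA Δ Q Y D L M l n).card : ℝ) := by
      calc (x : ℝ) / (2 * (M : ℝ) ^ 2) ≤ (l : ℝ) / (2 * (M : ℝ) ^ 2) := by gcongr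
        _ ≤ 2 ^ ((2 * D + 1) * n) * ((sftA Δ Q Y D L M l n).card : ℝ) := h4
        _ ≤ _ := mul_le_mul_of_nonneg_right h3 (by positivity)
    rw [div_le_iff₀ (by positivity)] at h6 ⊢
    calc (x : ℝ) ≤ _ := h6
      _ = _ := by ring
  have hprimes := hx0 x (by omega)
  rw [← hφ] at hprimes
  have hsum : (x : ℝ) / (2 * φ * Real.log x) *
      ((x : ℝ) / (2 * (M : ℝ) ^ 2 * (Real.log x) ^ (2 * D + 1))) ≤
      ((goodA a b c m ρ t0 h C N).card : ℝ) * J := by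
    have h1 : ((∑ l ∈ (Finset.Ioc x (2 * x)).filter (fun p => p.Prime ∧ p ≡ 1 [MOD M]),
      (sftA Δ Q Y D L M l n).card : ℕ) : ℝ) ≤ ((goodA a b c m ρ t0 h C N).card : ℝ) * J := by
      exact_mod_cast hcount
    refine le_trans ?_ h1
    push_cast
    calc _ ≤ (((Finset.Ioc x (2 * x)).filter (fun p => p.Prime ∧ p ≡ 1 [MOD M])).card : ℝ) *
        ((x : ℝ) / (2 * (M : ℝ) ^ 2 * (Real.log x) ^ (2 * D + 1))) :=
          mul_le_mul_of_nonneg_right hprimes (by positivity)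
      _ = ∑ l ∈ (Finset.Ioc x (2 * x)).filter (fun p => p.Prime ∧ p ≡ 1 [MOD M]),
          ((x : ℝ) / (2 * (M : ℝ) ^ 2 * (Real.log x) ^ (2 * D + 1))) := by
          rw [Finset.sum_const, nsmul_eq_mul]
      _ ≤ _ := Finset.sum_le_sum hsft
  have hNr : (N : ℝ) ≤ 4 * C0 * (x : ℝ) ^ 2 := by
    have : N ≤ 4 * C0 * x ^ 2 := by
      have := hNup.le
      calc N ≤ C0 * (4 * x ^ 2) := this
        _ = _ := by ring
    exact_mod_cast this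
  have hxN : x ≤ N := by
    have h1 : 1 ≤ x := by omega
    calc x ≤ x ^ 2 := Nat.le_self_pow two_ne_zero x
      _ ≤ C0 * x ^ 2 := Nat.le_mul_of_pos_left _ hC0pos
      _ ≤ N := hxup
  have hlogN : Real.log x ≤ Real.log N := Real.log_le_log hxpos (by exact_mod_cast hxN)
  have h8 : (Real.log x) ^ (2 * D + 2) ≤ (Real.log N) ^ C := by
    calc (Real.log x) ^ (2 * D + 2) ≤ (Real.log N) ^ (2 * D + 2) :=
          pow_le_pow_left₀ (by linarith) hlogN _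
      _ ≤ (Real.log N) ^ C := pow_le_pow_right₀ (by linarith) (by omega)
  calc 1 / (16 * C0 * φ * (M : ℝ) ^ 2 * J) * ((N : ℝ) / (Real.log N) ^ C) ≤
      1 / (16 * C0 * φ * (M : ℝ) ^ 2 * J) *
        ((4 * C0 * (x : ℝ) ^ 2) / (Real.log x) ^ (2 * D + 2)) := by
        apply mul_le_mul_of_nonneg_left _ (by positivity)
        have h9 : 0 < (Real.log x) ^ (2 * D + 2) := by positivity
        exact div_le_div₀ (by positivity) hNr h9 h8
    _ = ((x : ℝ) / (2 * φ * Real.log x) *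
        ((x : ℝ) / (2 * (M : ℝ) ^ 2 * (Real.log x) ^ (2 * D + 1)))) / J := by
        have h10 : (Real.log x) ^ (2 * D + 2) = Real.log x * (Real.log x) ^ (2 * D + 1) := by ring
        rw [h10]
        field_simp
        norm_num
    _ ≤ ((goodA a b c m ρ t0 h C N).card : ℝ) := by
        rw [div_le_iff₀ hJr]
        exact hsum

end Pool.Agent.Lib.MP_a17b09_nt.AM
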