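import Pool.Agent.Lib.MP_a17b09_nt.AM.Stmts

/-!
Local densities: pairs of residues modulo a prime for which one of the values vanishes.
-/

set_option autoImplicit false

namespace Pool.Agent.Lib.MP_a17b09_nt.AM

open Finset Pool.Agent.Lib.QuadParity Pool.Agent.MP_a17b09_nt.OM Pool.Agent.Lib.MP_a17b09_nt.BP

theorem stPer_12 : StPer := by
  intro Δ Q l Y q s
  rcases Nat.eq_zero_or_pos q with h | h
  · subst h; simp
  · haveI : NeZero q := ⟨h.ne'⟩
    unfold badA
    rw [← ZMod.intCast_zmod_eq_zero_iff_dvd, ← ZMod.intCast_zmod_eq_zero_iff_dvd]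
    unfold wF
    push_cast
    rfl

theorem stNb_12 : StNb := by
  classical
  intro Δ Q l Y q hq
  haveI : Fact q.Prime := ⟨hq⟩
  obtain ⟨T, hT⟩ : ∃ T : ℕ → Finset (ZMod q × ZMod q), T = fun i : ℕ =>
      univ.filter (fun s : ZMod q × ZMod q =>
        (s.1 * (s.2 + (i : ZMod q) * ((Q : ZMod q) * l)) - 1) ^ 2 -
          (Δ : ZMod q) * ((Q : ZMod q) * l) ^ 2 *
            (s.2 + (i : ZMod q) * ((Q : ZMod q) * l)) ^ 2 = 0) := ⟨_, rfl⟩
  have hfib : ∀ (T : Finset (ZMod q × ZMod q)),
      (∀ y : ZMod q, (univ.filter (fun x : ZMod q => (x, y) ∈ T)).card ≤ 2) → T.card ≤ 2 * q := by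
    intro T hT
    have h1 : T.card = ∑ y : ZMod q, (T.filter (fun s => s.2 = y)).card :=
      Finset.card_eq_sum_card_fiberwise (fun s _ => mem_univ s.2)
    rw [h1]
    calc ∑ y : ZMod q, (T.filter (fun s => s.2 = y)).card ≤ ∑ y : ZMod q, 2 := by
          apply Finset.sum_le_sum
          intro y _
          refine le_trans ?_ (hT y)
          apply Finset.card_le_card_of_injOn (fun s => s.1)
          · intro s hs
            simp only [mem_filter, mem_univ, true_and, coe_filter, Set.mem_setOf_eq] at hs ⊢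
            rw [← hs.2]; exact hs.1
          · intro s hs s' hs' h
            simp only [coe_filter, Set.mem_setOf_eq] at hs hs'
            exact Prod.ext h (by rw [hs.2, hs'.2])
      _ = 2 * q := by simp [ZMod.card, mul_comm]
  have hc : ∀ i : ℕ, (T i).card ≤ 2 * q := by
    intro i
    apply hfib
    intro y
    obtain ⟨g, hg⟩ : ∃ g : ZMod q, g = y + (i : ZMod q) * ((Q : ZMod q) * l) := ⟨_, rfl⟩
    have := roots_le_two (g ^ 2) (-2 * g)
      (1 - (Δ : ZMod q) * ((Q : ZMod q) * l) ^ 2 * g ^ 2) (by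
        by_cases hy : g = 0
        · right
          rw [hy]
          refine ⟨by ring, ?_⟩
          simp
        · left
          exact pow_ne_zero 2 hy)
    refine le_trans (Finset.card_le_card ?_) this
    intro x hx
    simp only [hT, mem_filter, mem_univ, true_and] at hx ⊢
    rw [← hg] at hx
    rw [← hx]; ring
  have hmap : nb2 (badA Δ Q l Y) q ≤ ((Finset.range (Y + 1)).biUnion T).card := by
    unfold nb2
    apply Finset.card_le_card_of_injOn (fun s : ℕ × ℕ => ((s.1 : ZMod q), (s.2 : ZMod q)))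
    · intro s hs
      simp only [coe_filter, Set.mem_setOf_eq, mem_product, mem_range] at hs
      have h2 := hs.2
      unfold badA at h2
      rw [← ZMod.intCast_zmod_eq_zero_iff_dvd, Int.cast_prod, Finset.prod_eq_zero_iff] at h2
      obtain ⟨i, hi, h3⟩ := h2
      rw [Finset.mem_coe, Finset.mem_biUnion]
      refine ⟨i, hi, ?_⟩
      unfold wF at h3
      push_cast at h3
      simp only [hT, mem_filter, mem_univ, true_and]
      exact h3
    · intro s hs s' hs' h
      simp only [coe_filter, Set.mem_setOf_eq, mem_product, mem_range] at hs hs'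
      simp only [Prod.mk.injEq] at h
      have e1 := (ZMod.natCast_eq_natCast_iff' _ _ _).1 h.1
      have e2 := (ZMod.natCast_eq_natCast_iff' _ _ _).1 h.2
      rw [Nat.mod_eq_of_lt hs.1.1, Nat.mod_eq_of_lt hs'.1.1] at e1
      rw [Nat.mod_eq_of_lt hs.1.2, Nat.mod_eq_of_lt hs'.1.2] at e2
      exact Prod.ext e1 e2
  calc nb2 (badA Δ Q l Y) q ≤ ((Finset.range (Y + 1)).biUnion T).card := hmap
    _ ≤ ∑ i ∈ Finset.range (Y + 1), (T i).card := Finset.card_biUnion_le
    _ ≤ ∑ _i ∈ Finset.range (Y + 1), 2 * q := Finset.sum_le_sum (fun i _ => hc i)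
    _ = 2 * (Y + 1) * q := by
        rw [Finset.sum_const, Finset.card_range, smul_eq_mul]; ring

end Pool.Agent.Lib.MP_a17b09_nt.AM
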