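import Pool.Agent.Lib.MP_a17b09_nt.AM.Stmts

/-!
The pattern property for odd moduli, from the finitary colouring theorem.
-/

set_option autoImplicit false

namespace Pool.Agent.Lib.MP_a17b09_nt.AM

open Finset Pool.Agent.Lib.QuadParity Pool.Agent.Lib.QuadThree Pool.Agent.MP_a17b09_nt.OM
  Pool.Agent.Lib.MP_a17b09_nt.BP

/-- roots modulo the primes `1` modulo `16 |Δ|` -/
theorem root53 (Δ : ℤ) (hΔ0 : Δ ≠ 0) : ∀ p : ℕ, p.Prime → p ≡ 1 [MOD 16 * Δ.natAbs] →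
    ∃ ρ : ℤ, (p : ℤ) ∣ Gf Δ ρ := by
  intro p hp hmod
  have hΔ4 : (0 : ℤ) ^ 2 - 4 * 1 * (-Δ) ≠ 0 := by
    intro h; apply hΔ0; linarith
  have habs : ((0 : ℤ) ^ 2 - 4 * 1 * (-Δ)).natAbs = 4 * Δ.natAbs := by
    have e : (0 : ℤ) ^ 2 - 4 * 1 * (-Δ) = 4 * Δ := by ring
    rw [e, Int.natAbs_mul]
    rfl
  have hpndvd : ∀ x : ℕ, x ∣ 16 * Δ.natAbs → p ∣ x → False := by
    intro x hx hpx
    have h1 : p ∣ 16 * Δ.natAbs := hpx.trans hx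
    have h2 : p ≡ 1 [MOD p] := hmod.of_dvd h1
    have h3 : p ∣ 1 := by
      have := (Nat.modEq_iff_dvd' hp.one_le).1 h2.symm
      have h4 : p ∣ p := dvd_rfl
      have h5 := Nat.dvd_sub h4 this
      have h6 : p - (p - 1) = 1 := by have := hp.one_le; omega
      rwa [h6] at h5
    exact hp.one_lt.ne' (Nat.dvd_one.1 h3)
  obtain ⟨x, hx⟩ := root_mod_k 1 0 (-Δ) p hp hΔ4 (by
    rw [habs]
    have e : 4 * (4 * Δ.natAbs) = 16 * Δ.natAbs := by ring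
    rw [e]; exact hmod) (by
    intro hd
    have h1 : p ∣ 2 := by
      have : (p : ℤ) ∣ ((2 : ℕ) : ℤ) := by simpa using hd
      exact_mod_cast this
    exact hpndvd 2 (Dvd.dvd.mul_right (by norm_num) _) h1) (by
    intro hd
    have h1 := Int.natCast_dvd.1 hd
    rw [habs] at h1
    exact hpndvd (4 * Δ.natAbs) ⟨4, by ring⟩ h1)
  refine ⟨x, ?_⟩
  have e : qf 1 0 (-Δ) x = Gf Δ x := by rw [Gf_eq]; unfold qf; ring
  rwa [e] at hx

theorem isCoprime_of_modEq53 (n Q x : ℕ) (h : n ≡ 1 [MOD Q]) (hx : x ∣ Q) :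
    IsCoprime (n : ℤ) (x : ℤ) := by
  have h1 : (Q : ℤ) ∣ (n : ℤ) - ((1 : ℕ) : ℤ) := Nat.modEq_iff_dvd.1 h.symm
  have h2 : (x : ℤ) ∣ (Q : ℤ) := by exact_mod_cast hx
  obtain ⟨v, hv⟩ := h2.trans h1
  push_cast at hv
  exact ⟨1, -v, by linear_combination hv⟩

theorem patO_53 (hct : StCT) : StPatO := by
  intro Δ hΔ m hm c r hr τ
  have hΔ0 : Δ ≠ 0 := by
    rintro rfl
    exact hΔ ⟨0, by norm_num⟩
  have hΔpos : 0 < Δ.natAbs := Int.natAbs_pos.2 hΔ0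
  obtain ⟨y0, hy0r, hy0Δ⟩ : ∃ y0 : ℕ, (r : ℤ) ∣ (y0 : ℤ) + 1 - τ ∧ |Δ| < (y0 : ℤ) := by
    obtain ⟨w, hw⟩ : ∃ w : ℤ, w = |τ| + |Δ| + 2 := ⟨_, rfl⟩
    have hr1 : (1 : ℤ) ≤ r := by exact_mod_cast hr
    have h1 := neg_abs_le τ
    have h2 := abs_nonneg Δ
    have hw0 : 0 ≤ w := by rw [hw]; positivity
    have h3 : w ≤ r * w := by nlinarith
    refine ⟨(τ - 1 + r * w).toNat, ?_, ?_⟩
    · rw [Int.toNat_of_nonneg (by linarith)]
      exact ⟨w, by ring⟩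
    · rw [Int.toNat_of_nonneg (by linarith)]
      linarith
  have hG1pos : 0 < Gf Δ y0 := by
    rw [Gf_eq]
    have h1 : (0 : ℤ) ≤ |Δ| := abs_nonneg Δ
    have h2 : (y0 : ℤ) ≤ (y0 : ℤ) ^ 2 := by nlinarith
    linarith [le_abs_self Δ]
  obtain ⟨e0, he0⟩ : ∃ e0 : ℕ, (e0 : ℤ) = Gf Δ y0 :=
    ⟨(Gf Δ y0).toNat, Int.toNat_of_nonneg hG1pos.le⟩
  have he0pos : 0 < e0 := by
    rw [← he0] at hG1pos
    exact_mod_cast hG1pos
  obtain ⟨R, hR⟩ : ∃ R : ℕ, R = e0 * r := ⟨_, rfl⟩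
  have hRpos : 0 < R := by rw [hR]; exact Nat.mul_pos he0pos hr
  obtain ⟨K0, hK0⟩ : ∃ K0 : ℕ, K0 = 16 * Δ.natAbs * R := ⟨_, rfl⟩
  have hK0pos : 0 < K0 := by rw [hK0]; positivity
  obtain ⟨Y, hCT⟩ := hct m hm K0 R e0 hK0pos hRpos he0pos y0
    (c + 2 * ((Om (e0 : ℤ) : ℕ) : ZMod m))
  have hroot : ∀ p : ℕ, p.Prime → p ≡ 1 [MOD K0] → ∃ ρ : ℤ, (p : ℤ) ∣ Gf Δ ρ :=
    fun p hp hmod => root53 Δ hΔ0 p hp (hmod.of_dvd ⟨R, by rw [hK0]⟩)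
  have hRK : R ∣ K0 := ⟨16 * Δ.natAbs, by rw [hK0]; ring⟩
  refine ⟨Y, R, hRpos, ?_⟩
  intro Q hQ hRQ hpQ n s g hn0 hnQ hsQ hg
  classical
  have hpn : ∀ p : ℕ, p.Prime → p ≤ Y → ¬ p ∣ n := by
    intro p hp hpY hd
    have h1 := isCoprime_of_modEq53 n Q p hnQ (hpQ p hp hpY)
    have h2 : Nat.Coprime n p := Nat.isCoprime_iff_coprime.1 h1
    have h3 := hp.coprime_iff_not_dvd.1 h2.symm
    exact h3 hd
  have hidx : ∀ p : ℕ, ∃ i : ℕ, p.Prime → p ≡ 1 [MOD K0] → p ≤ Y →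
      (p : ℤ) ∣ Gf Δ (s + n * i) := by
    intro p
    by_cases h : p.Prime ∧ p ≡ 1 [MOD K0] ∧ p ≤ Y
    · obtain ⟨hp, hpK, hpY⟩ := h
      obtain ⟨ρ, hρ⟩ := hroot p hp hpK
      obtain ⟨i, hi⟩ := exists_idx Δ p n hp (hpn p hp hpY) s ρ hρ
      exact ⟨i, fun _ _ _ => hi⟩
    · exact ⟨0, fun h1 h2 h3 => absurd ⟨h1, h2, h3⟩ h⟩
  choose ri hri using hidx
  obtain ⟨y, k, hyk, hk0, hksq, hkp, hyy0, hχ⟩ := hCT (fun i => ((Om (g i) : ℕ) : ZMod m)) ri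
  have hkY : k ≤ Y := by
    have : k ≤ e0 * k := Nat.le_mul_of_pos_left k he0pos
    omega
  have hyY : y ≤ Y := by omega
  obtain ⟨hg1, hg2⟩ := hg y hyY
  obtain ⟨hg3, hg4⟩ := hg (y + e0 * k) hyk
  have hnz : (0 : ℤ) < n := by exact_mod_cast hn0
  have hkG : (k : ℤ) ∣ g y := by
    apply sqfree_dvd k hksq
    intro p hp hpk
    have hpY : p ≤ Y := (Nat.le_of_dvd hk0 hpk).trans hkY
    obtain ⟨h1, h2⟩ := hkp p hp hpk
    have h3 := hri p hp h1 hpY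
    have h4 : (p : ℤ) ∣ Gf Δ (s + n * y) := by
      refine (Gf_dvd_of Δ p _ _ ?_).2 h3
      have h4 : (p : ℤ) ∣ (y : ℤ) - (ri p : ℤ) := Nat.modEq_iff_dvd.1 h2.symm
      have e : s + n * y - (s + n * (ri p : ℤ)) = n * ((y : ℤ) - ri p) := by ring
      rw [e]
      exact h4.mul_left _
    rw [hg2] at h4
    rcases (Nat.prime_iff_prime_int.1 hp).dvd_or_dvd h4 with h | h
    · exact absurd (by exact_mod_cast h) (hpn p hp hpY)
    · exact h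
  have hk1 : k ≡ 1 [MOD K0] := modEq_one_of_primes K0 k hk0.ne' (fun p hp hd => (hkp p hp hd).1)
  have hn1R : (R : ℤ) ∣ (n : ℤ) - 1 := by
    have h1 : (Q : ℤ) ∣ (n : ℤ) - ((1 : ℕ) : ℤ) := Nat.modEq_iff_dvd.1 hnQ.symm
    have h2 : (R : ℤ) ∣ (Q : ℤ) := by exact_mod_cast hRQ
    have h3 := h2.trans h1
    push_cast at h3
    exact h3
  have hk1R : (R : ℤ) ∣ (k : ℤ) - 1 := by
    have h1 : (K0 : ℤ) ∣ (k : ℤ) - ((1 : ℕ) : ℤ) := Nat.modEq_iff_dvd.1 hk1.symm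
    have h2 : (R : ℤ) ∣ (K0 : ℤ) := by exact_mod_cast hRK
    have h3 := h2.trans h1
    push_cast at h3
    exact h3
  have hsR : (R : ℤ) ∣ s + n * y - y0 := by
    have h0 : (R : ℤ) ∣ s := by
      have h2 : (R : ℤ) ∣ (Q : ℤ) := by exact_mod_cast hRQ
      exact h2.trans hsQ
    have h1 : (R : ℤ) ∣ (y : ℤ) - (y0 : ℤ) := Nat.modEq_iff_dvd.1 hyy0.symm
    have e : s + n * y - y0 = s + (n - 1) * y + (y - y0) := by ring
    rw [e]
    exact dvd_add (dvd_add h0 (hn1R.mul_right _)) h1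
  have hgR : (R : ℤ) ∣ g y - e0 := by
    have h1 : (R : ℤ) ∣ Gf Δ (s + n * y) - Gf Δ y0 := by
      have e : Gf Δ (s + n * y) - Gf Δ y0 = (s + n * y - y0) * (s + n * y + y0) := by
        rw [Gf_eq, Gf_eq]; ring
      rw [e]
      exact hsR.mul_right _
    rw [hg2, ← he0] at h1
    have e : g y - e0 = (n * g y - e0) - (n - 1) * g y := by ring
    rw [e]
    exact dvd_sub h1 (hn1R.mul_right _)
  have hrR : (r : ℤ) ∣ (R : ℤ) := by rw [hR]; push_cast; exact Dvd.intro_left _ rfl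
  have he0R : (e0 : ℤ) ∣ (R : ℤ) := by rw [hR]; push_cast; exact Dvd.intro _ rfl
  have he0k : IsCoprime (e0 : ℤ) (k : ℤ) := by
    obtain ⟨v, hv⟩ := he0R.trans hk1R
    exact ⟨-v, 1, by linear_combination hv⟩
  have he0g : (e0 : ℤ) ∣ g y := by
    have h1 := he0R.trans hgR
    have e : g y = (g y - e0) + e0 := by ring
    rw [e]
    exact dvd_add h1 dvd_rfl
  obtain ⟨l, hl⟩ := he0k.mul_dvd he0g hkG
  have he0z : (0 : ℤ) < e0 := by exact_mod_cast he0pos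
  have hkz : (0 : ℤ) < k := by exact_mod_cast hk0
  have hl0 : 0 < l := by
    rw [hl] at hg1
    exact pos_of_mul_pos_right hg1 (mul_pos he0z hkz).le
  have hlr : (r : ℤ) ∣ l - 1 := by
    obtain ⟨w, hw⟩ := hgR
    have h1 : (k : ℤ) * l = 1 + r * w := by
      have h2 : (e0 : ℤ) * (k * l) = e0 * (1 + r * w) := by
        have h3 : (R : ℤ) = e0 * r := by rw [hR]; push_cast; ring
        rw [h3] at hw
        linear_combination hw - hl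
      exact mul_left_cancel₀ he0z.ne' h2
    have h3 := hrR.trans hk1R
    have e : l - 1 = r * w - (k - 1) * l := by linear_combination h1
    rw [e]
    exact dvd_sub (Dvd.intro _ rfl) (h3.mul_right _)
  obtain ⟨S, hS⟩ : ∃ S : ℤ, S = s + n * y := ⟨_, rfl⟩
  have hSl : Gf Δ S = ((n : ℤ) * (e0 * k)) * l := by rw [hS, hg2, hl]; ring
  have hSD : s + n * ((y + e0 * k : ℕ) : ℤ) = S + (n : ℤ) * (e0 * k) := by
    rw [hS]; push_cast; ring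
  obtain ⟨e1, e2⟩ := mf_pair 0 (-Δ) S ((n : ℤ) * (e0 * k)) l hSl
  have e1' : Gf Δ (S + (n : ℤ) * (e0 * k)) =
      ((n : ℤ) * (e0 * k)) * (l + 2 * S + 0 + (n : ℤ) * (e0 * k)) := e1
  have e2' : Gf Δ (S + l) = l * (l + 2 * S + 0 + (n : ℤ) * (e0 * k)) := e2
  rw [hSD, e1'] at hg4
  obtain ⟨Z, hZ⟩ : ∃ Z : ℤ, Z = l + 2 * S + 0 + (n : ℤ) * (e0 * k) := ⟨_, rfl⟩
  rw [← hZ] at hg4 e2'
  have hgZ : g (y + e0 * k) = (e0 * k) * Z := by
    have h1 : (n : ℤ) * g (y + e0 * k) = n * ((e0 * k) * Z) := by rw [← hg4]; ring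
    exact mul_left_cancel₀ hnz.ne' h1
  have hZ0 : 0 < Z := by
    rw [hgZ] at hg3
    exact pos_of_mul_pos_right hg3 (mul_pos he0z hkz).le
  refine ⟨y, e0 * k, l, hyk, Nat.mul_pos he0pos hk0, hl0, ?_, ?_, ?_, ?_, ?_, ?_⟩
  · rw [hl]; push_cast; ring
  · have e : s + n * y + l - τ = (s + n * y - y0) + (l - 1) + (y0 + 1 - τ) := by ring
    rw [e]
    exact dvd_add (dvd_add (hrR.trans hsR) hlr) hy0r
  · rw [← hS, e2']; positivity
  · rw [← hS, e2']; exact Dvd.intro _ rfl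
  · rw [← hS, e2', hl, hgZ]; push_cast; ring
  · rw [← hS, e2', Om_mul hl0.ne' hZ0.ne']
    have h1 : Om (g y) = Om (e0 : ℤ) + ArithmeticFunction.cardFactors k + Om l := by
      rw [hl, Om_mul (mul_pos he0z hkz).ne' hl0.ne', Om_mul he0z.ne' hkz.ne']
      congr 2
    have h2 : Om (g (y + e0 * k)) = Om (e0 : ℤ) + ArithmeticFunction.cardFactors k + Om Z := by
      rw [hgZ, Om_mul (mul_pos he0z hkz).ne' hZ0.ne', Om_mul he0z.ne' hkz.ne']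
      congr 2
    simp only [h1, h2] at hχ
    push_cast at hχ ⊢
    linear_combination hχ

end Pool.Agent.Lib.MP_a17b09_nt.AM
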