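import Pool.Agent.Lib.MP_a17b09_nt.AM.Stmts
import Pool.Agent.Lib.MP_a17b09_nt.BP.Sieve
import Pool.Agent.Lib.QuadThree.Ranges

/-!
Module B: the abstract lower bound sieve for densities at most `D / q`.
-/

set_option autoImplicit false

namespace Pool.Agent.Lib.MP_a17b09_nt.AM

open Finset Pool.Agent.Lib.MP_369a91_nt Pool.Agent.Lib.QuadParity

namespace SvD

open Pool.Agent.Lib.MP_a17b09_nt.BP.Sv (cube_le_two_pow)

theorem err_boundD (D n0 : ℕ) (T : ℕ) :
    ∏ i ∈ Finset.range (T + 1),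
      (1 + D * (QuadThree.Bd n0 i : ℝ) ^ 2) ^ (QuadThree.rr D n0 T i + 1) ≤
      ((1 + D * QuadThree.Bd n0 0 ^ 2) ^ (2 * QuadThree.Bd n0 0 + 1) : ℕ) *
        (2 : ℝ) ^ ((16 * D + 12) * 2 ^ (n0 + T) + D * ((4 * D + 1 + 2 * T) * T)) := by
  rw [Finset.prod_range_succ', mul_comm]
  push_cast
  apply mul_le_mul
  · simp [QuadThree.rr]
  · calc ∏ i ∈ Finset.range T,
          (1 + D * (QuadThree.Bd n0 (i + 1) : ℝ) ^ 2) ^ (QuadThree.rr D n0 T (i + 1) + 1) ≤
        ∏ i ∈ Finset.range T,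
          (2 : ℝ) ^ ((2 * 2 ^ (n0 + (i + 1)) + D) * (4 * D + 1 + 2 * (T - 1 - i))) := by
          apply Finset.prod_le_prod
          · intro i _; positivity
          · intro i _
            have h1 : QuadThree.rr D n0 T (i + 1) + 1 = 4 * D + 1 + 2 * (T - 1 - i) := by
              simp only [QuadThree.rr]; omega
            rw [h1, pow_mul]
            apply pow_le_pow_left₀ (by positivity)
            rw [pow_add, mul_comm 2 (2 ^ (n0 + (i + 1))), pow_mul 2 (2 ^ (n0 + (i + 1))) 2]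
            have h3 : (1 : ℝ) ≤ (QuadThree.Bd n0 (i + 1) : ℝ) := by
              exact_mod_cast QuadThree.one_le_Bd n0 (i + 1)
            have h4 : (QuadThree.Bd n0 (i + 1) : ℝ) = 2 ^ (2 ^ (n0 + (i + 1))) := by
              unfold QuadThree.Bd; push_cast; rfl
            rw [← h4]
            have h5 : (D : ℝ) + 1 ≤ 2 ^ D := by
              have : D + 1 ≤ 2 ^ D := Nat.lt_two_pow_self
              exact_mod_cast this
            have h6 : (1 : ℝ) ≤ (QuadThree.Bd n0 (i + 1) : ℝ) ^ 2 := one_le_pow₀ h3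
            have h7 : (0 : ℝ) ≤ (QuadThree.Bd n0 (i + 1) : ℝ) ^ 2 := by positivity
            calc 1 + (D : ℝ) * (QuadThree.Bd n0 (i + 1) : ℝ) ^ 2 ≤
                (QuadThree.Bd n0 (i + 1) : ℝ) ^ 2 * ((D : ℝ) + 1) := by linarith
              _ ≤ _ := mul_le_mul_of_nonneg_left h5 h7
      _ = (2 : ℝ) ^ (∑ i ∈ Finset.range T,
            (2 * 2 ^ (n0 + (i + 1)) + D) * (4 * D + 1 + 2 * (T - 1 - i))) := by
          rw [Finset.prod_pow_eq_pow_sum]
      _ ≤ _ := by
          apply pow_le_pow_right₀ (by norm_num)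
          have h1 : ∑ i ∈ Finset.range T,
              (2 * 2 ^ (n0 + (i + 1)) + D) * (4 * D + 1 + 2 * (T - 1 - i)) =
              2 * (2 ^ n0 * ∑ i ∈ Finset.range T, 2 ^ (i + 1) * (4 * D + 1 + 2 * (T - 1 - i))) +
              D * ∑ i ∈ Finset.range T, (4 * D + 1 + 2 * (T - 1 - i)) := by
            rw [Finset.mul_sum, Finset.mul_sum, Finset.mul_sum, ← Finset.sum_add_distrib]
            apply Finset.sum_congr rfl
            intro i _
            rw [pow_add]; ring
          rw [h1]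
          have h2 := Nat.mul_le_mul_left 2 (Nat.mul_le_mul_left (2 ^ n0) (QuadThree.F_sum D T))
          have h3 := Nat.mul_le_mul_left D (QuadThree.G_sum D T)
          have h5 : 2 * (2 ^ n0 * ((8 * D + 6) * 2 ^ T)) = (16 * D + 12) * 2 ^ (n0 + T) := by
            rw [pow_add]; ring
          omega
  · apply Finset.prod_nonneg
    intro i _; positivity
  · positivity

/-- The sieve bound in raw form. -/
theorem sieve_rawD (D n0 : ℕ) (hn0 : 14 ≤ n0) (hD : D ≤ n0) (T : ℕ) {α : Type} (S : Finset α)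
    (bad : ℕ → α → Prop) (h : ℕ → ℝ) (X E : ℝ) (hX : 0 ≤ X) (hE : 0 ≤ E)
    (hh : ∀ q : ℕ, q.Prime → D < q → q ≤ QuadThree.Bd n0 T → 0 ≤ h q ∧ h q ≤ D / q)
    (hcnt : open Classical in ∀ P : Finset ℕ,
      (∀ q ∈ P, q.Prime ∧ D < q ∧ q ≤ QuadThree.Bd n0 T) →
      |((S.filter (fun s => ∀ q ∈ P, bad q s)).card : ℝ) - X * ∏ q ∈ P, h q| ≤
        E * ∏ q ∈ P, (D * (q : ℝ))) :
    open Classical in
    X * ((1 / (D + 1 : ℝ)) ^ (QuadThree.Bd n0 0) * ((1 / 3) ^ D) ^ T * 0.1) -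
      E * (((1 + D * QuadThree.Bd n0 0 ^ 2) ^ (2 * QuadThree.Bd n0 0 + 1) : ℕ) *
        (2 : ℝ) ^ ((16 * D + 12) * 2 ^ (n0 + T) + D * ((4 * D + 1 + 2 * T) * T))) ≤
    ((S.filter
      (fun s => ∀ q : ℕ, q.Prime → D < q → q ≤ QuadThree.Bd n0 T → ¬ bad q s)).card : ℝ) := by
  classical
  have hD0 : (0 : ℝ) ≤ D := Nat.cast_nonneg D
  set v : ℕ → ℝ := fun i =>
    if i = 0 then (1 / (D + 1 : ℝ)) ^ (QuadThree.Bd n0 0) else (1 / 3) ^ D with hv
  set ε : ℕ → ℝ := fun i => if i = 0 then 0 else 0.2 * 0.04 ^ (T - i) with hε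
  have hsum : ∑ i ∈ Finset.range (T + 1), ε i ≤ 0.9 := by
    rw [Finset.sum_range_succ']
    simp only [hε, if_true, add_zero, Nat.add_eq_zero_iff, one_ne_zero, and_false, if_false]
    refine le_trans (le_of_eq ?_) (QuadThree.eps_sum T)
    apply Finset.sum_congr rfl
    intro i _
    congr 2
    omega
  have hprodv : ∏ i ∈ Finset.range (T + 1), v i =
      (1 / (D + 1 : ℝ)) ^ (QuadThree.Bd n0 0) * ((1 / 3) ^ D) ^ T := by
    rw [Finset.prod_range_succ']
    simp only [hv, if_true, Nat.add_eq_zero_iff, one_ne_zero, and_false, if_false,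
      Finset.prod_const, Finset.card_range]
    ring
  have hPI : ∀ q ∈ PiU (QuadThree.Pr D n0) (T + 1), q.Prime ∧ D < q ∧ q ≤ QuadThree.Bd n0 T := by
    intro q hq
    rw [QuadThree.PiU_Pr D n0 hn0 hD, Finset.mem_filter, Finset.mem_Ioc] at hq
    exact ⟨hq.2, hq.1.1, hq.1.2⟩
  have hle : ∀ i, ∀ q ∈ QuadThree.Pr D n0 i, q ≤ QuadThree.Bd n0 i := by
    intro i q hq
    have h1 := Finset.mem_filter.1 (QuadThree.Pr_sub D n0 hn0 hD i hq)
    rw [Finset.mem_Ioc] at h1
    exact h1.1.2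
  have hmain := BP.Sv.sieve_count S (QuadThree.Pr D n0) (QuadThree.rr D n0 T)
    (QuadThree.Pr_disjoint D n0 hn0 hD) (by
      intro t
      cases t with
      | zero => exact even_two_mul _
      | succ t =>
        simp only [QuadThree.rr]
        exact Even.add ⟨2 * D, by ring⟩ (even_two_mul _))
    bad (fun q => D * (q : ℝ)) (fun q => by positivity)
    (fun i => D * (QuadThree.Bd n0 i : ℝ) ^ 2) (by
      intro i
      have h1 : ∀ q ∈ QuadThree.Pr D n0 i, D * (q : ℝ) ≤ D * (QuadThree.Bd n0 i : ℝ) := by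
        intro q hq
        have h2 : (q : ℝ) ≤ QuadThree.Bd n0 i := by exact_mod_cast hle i q hq
        exact mul_le_mul_of_nonneg_left h2 hD0
      refine (Finset.sum_le_sum h1).trans ?_
      rw [Finset.sum_const, nsmul_eq_mul]
      have := QuadThree.Pr_card D n0 hn0 hD i
      have h2 : ((QuadThree.Pr D n0 i).card : ℝ) ≤ (QuadThree.Bd n0 i : ℝ) := by
        exact_mod_cast this
      have h3 : (0 : ℝ) ≤ D * (QuadThree.Bd n0 i : ℝ) := by positivity
      calc ((QuadThree.Pr D n0 i).card : ℝ) * (D * (QuadThree.Bd n0 i : ℝ)) ≤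
          (QuadThree.Bd n0 i : ℝ) * (D * (QuadThree.Bd n0 i : ℝ)) :=
            mul_le_mul_of_nonneg_right h2 h3
        _ = _ := by ring)
    h (fun q => D / (q : ℝ)) (fun q => by positivity) (T + 1)
    (fun q hq => (hh q (hPI q hq).1 (hPI q hq).2.1 (hPI q hq).2.2).1)
    (fun q hq => (hh q (hPI q hq).1 (hPI q hq).2.1 (hPI q hq).2.2).2)
    (fun t q hq => by
      have h1 := QuadThree.Pr_gt D n0 hn0 hD t q hq
      have h2 : (D : ℝ) < q := by exact_mod_cast h1
      rw [div_le_one (by linarith)]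
      exact h2.le) v (by
      intro t
      simp only [hv]
      split_ifs <;> positivity) (by
      intro t
      simp only [hv]
      cases t with
      | zero => rw [if_pos rfl]; exact QuadThree.prod_Pr0_ge D n0 hn0 hD
      | succ t => rw [if_neg (by omega)]; exact QuadThree.prod_Pr_ge D n0 hn0 hD t) ε (by
      intro t ht
      cases t with
      | zero =>
        simp only [hε, if_true, zero_mul]
        apply le_of_eq
        apply es_eq_zero
        have := QuadThree.Pr_card D n0 hn0 hD 0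
        simp only [QuadThree.rr]
        omega
      | succ t =>
        simp only [hε, hv]
        rw [if_neg (by omega), if_neg (by omega)]
        have h1 := es_le (QuadThree.Pr D n0 (t + 1)) (fun q => D / (q : ℝ))
          (fun q => by positivity) (QuadThree.rr D n0 T (t + 1) + 1)
        have h2 := QuadThree.sum_Pr_le D n0 hn0 t
        have hr : QuadThree.rr D n0 T (t + 1) + 1 = 4 * D + 1 + 2 * (T - 1 - t) := by
          simp only [QuadThree.rr]; omega
        rw [hr] at h1 ⊢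
        refine h1.trans ?_
        have h3 : (∑ q ∈ QuadThree.Pr D n0 (t + 1), D / (q : ℝ)) ^
            (4 * D + 1 + 2 * (T - 1 - t)) ≤ (0.73 * D) ^ (4 * D + 1 + 2 * (T - 1 - t)) := by
          apply pow_le_pow_left₀ _ h2
          exact Finset.sum_nonneg (fun q _ => by positivity)
        have h4 := QuadThree.fact_bound D (T - 1 - t)
        have h5 : T - (t + 1) = T - 1 - t := by omega
        rw [h5]
        refine le_trans ?_ h4
        exact div_le_div_of_nonneg_right h3 (by positivity)) (by linarith) X E hX hE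
    (fun P hP => hcnt P (fun q hq => hPI q (hP hq)))
  rw [hprodv, QuadThree.PiU_Pr D n0 hn0 hD] at hmain
  have herr := err_boundD D n0 T
  refine le_trans ?_ (hmain.trans (le_of_eq ?_))
  swap
  · congr 2
    ext s
    simp only [Finset.mem_filter, Finset.mem_Ioc]
    apply and_congr_right
    intro _
    constructor
    · intro h q hq h4 hqB hbad
      exact h q ⟨⟨h4, hqB⟩, hq⟩ hbad
    · intro h q hq hbad
      exact h q hq.2 hq.1.1 hq.1.2 hbad
  have h6 : X * ((1 / (D + 1 : ℝ)) ^ (QuadThree.Bd n0 0) * ((1 / 3) ^ D) ^ T * 0.1) ≤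
      X * ((1 / (D + 1 : ℝ)) ^ (QuadThree.Bd n0 0) * ((1 / 3) ^ D) ^ T *
        (1 - ∑ i ∈ Finset.range (T + 1), ε i)) := by
    apply mul_le_mul_of_nonneg_left _ hX
    apply mul_le_mul_of_nonneg_left _ (by positivity)
    linarith
  have h7 := mul_le_mul_of_nonneg_left herr hE
  linarith

end SvD

open SvD in
/-- Module B. -/
theorem stSvD_42 : StSvD := by
  classical
  intro D
  obtain ⟨n0, hn0⟩ : ∃ n0 : ℕ, n0 = 14 + D := ⟨_, rfl⟩
  obtain ⟨B, hB⟩ : ∃ B : ℕ, B = QuadThree.Bd n0 0 := ⟨_, rfl⟩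
  obtain ⟨C, hC⟩ : ∃ C : ℕ, C = (1 + D * B ^ 2) ^ (2 * B + 1) := ⟨_, rfl⟩
  obtain ⟨K, hK⟩ : ∃ K : ℕ, K = 10 * (D + 1) ^ B := ⟨_, rfl⟩
  refine ⟨K + n0 + C + 4 * D + 100, ?_⟩
  intro n hn S bad h X E hX hE hh hcnt
  obtain ⟨T, hT⟩ : ∃ T : ℕ, n = n0 + T := ⟨n - n0, by omega⟩
  have hBd : QuadThree.Bd n0 T = 2 ^ (2 ^ n) := by unfold QuadThree.Bd; rw [hT]
  have hraw := sieve_rawD D n0 (by omega) (by omega) T S bad h X E hX hE (by rw [hBd]; exact hh)
    (by rw [hBd]; exact hcnt)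
  rw [hBd, ← hB, ← hC, ← hT] at hraw
  set Cnt : ℝ := ((S.filter (fun s => ∀ q : ℕ, q.Prime → D < q → q ≤ 2 ^ (2 ^ n) →
        ¬ bad q s)).card : ℝ) with hCnt
  -- main term
  have hmain : X ≤ 2 ^ ((2 * D + 1) * n) *
      (X * ((1 / (D + 1 : ℝ)) ^ B * ((1 / 3) ^ D) ^ T * 0.1)) := by
    have h1 : (K : ℝ) ≤ 2 ^ T := by
      have : K ≤ 2 ^ T := (show K ≤ T by omega).trans (Nat.lt_two_pow_self).le
      exact_mod_cast this
    have h2 : (2 : ℝ) ^ ((2 * D + 1) * n) =
        2 ^ ((2 * D + 1) * n0) * ((4 ^ D) ^ T * 2 ^ T) := by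
      have h21 : (2 : ℝ) ^ (2 * D + 1) = 4 ^ D * 2 := by
        rw [pow_succ, pow_mul]; norm_num
      rw [hT, mul_add, pow_add, pow_mul 2 (2 * D + 1) T, h21, mul_pow]
    have h3 : (1 : ℝ) ≤ 2 ^ ((2 * D + 1) * n0) := one_le_pow₀ (by norm_num)
    have h4 : (1 : ℝ) ≤ (4 ^ D) ^ T * ((1 / 3) ^ D) ^ T := by
      rw [← mul_pow, ← mul_pow]
      apply one_le_pow₀
      apply one_le_pow₀
      norm_num
    have hDp : (0 : ℝ) < (D + 1 : ℝ) ^ B := by positivity
    have h5 : (1 : ℝ) ≤ 2 ^ T * ((1 / (D + 1 : ℝ)) ^ B * 0.1) := by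
      have h6 : (K : ℝ) * ((1 / (D + 1 : ℝ)) ^ B * 0.1) = 1 := by
        rw [hK]
        push_cast
        rw [div_pow, one_pow]
        field_simp
        norm_num
      exact h6.symm.le.trans (mul_le_mul_of_nonneg_right h1 (by positivity))
    have h7 : (1 : ℝ) ≤ 2 ^ ((2 * D + 1) * n0) *
        (((4 ^ D) ^ T * ((1 / 3) ^ D) ^ T) * (2 ^ T * ((1 / (D + 1 : ℝ)) ^ B * 0.1))) := by
      have h8 := one_le_mul_of_one_le_of_one_le h4 h5
      exact one_le_mul_of_one_le_of_one_le h3 h8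
    calc X = 1 * X := by ring
      _ ≤ (2 ^ ((2 * D + 1) * n0) *
        (((4 ^ D) ^ T * ((1 / 3) ^ D) ^ T) * (2 ^ T * ((1 / (D + 1 : ℝ)) ^ B * 0.1)))) * X :=
          mul_le_mul_of_nonneg_right h7 hX
      _ = _ := by rw [h2]; ring
  -- error term
  have herr : ((C : ℝ) * 2 ^ ((16 * D + 12) * 2 ^ n + D * ((4 * D + 1 + 2 * T) * T))) ≤
      (2 : ℝ) ^ ((16 * D + 14) * 2 ^ n) := by
    have hC1 : (C : ℝ) ≤ 2 ^ C := by exact_mod_cast (Nat.lt_two_pow_self).le
    calc ((C : ℝ) * 2 ^ ((16 * D + 12) * 2 ^ n + D * ((4 * D + 1 + 2 * T) * T))) ≤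
        (2 ^ C * 2 ^ ((16 * D + 12) * 2 ^ n + D * ((4 * D + 1 + 2 * T) * T))) := by
          exact mul_le_mul_of_nonneg_right hC1 (by positivity)
      _ = (2 : ℝ) ^ (C + ((16 * D + 12) * 2 ^ n + D * ((4 * D + 1 + 2 * T) * T))) := by
          rw [pow_add _ C]
      _ ≤ _ := by
          apply pow_le_pow_right₀ (by norm_num)
          have h5 := cube_le_two_pow n (by omega)
          have hTn : T ≤ n := by omega
          have hCn : C ≤ n := by omega
          have hDn : 4 * D + 1 ≤ n := by omega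
          have h6 : (4 * D + 1 + 2 * T) * T ≤ (3 * n) * n := by
            apply Nat.mul_le_mul _ hTn
            omega
          have h7 : 4 * (D * ((4 * D + 1 + 2 * T) * T)) ≤ 3 * n ^ 3 := by
            calc 4 * (D * ((4 * D + 1 + 2 * T) * T)) = (4 * D) * ((4 * D + 1 + 2 * T) * T) := by
                  ring
              _ ≤ n * ((3 * n) * n) := Nat.mul_le_mul (by omega) h6
              _ = 3 * n ^ 3 := by ring
          have h8 : n ≤ n ^ 3 := by
            calc n = n ^ 1 := (pow_one n).symm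
              _ ≤ n ^ 3 := Nat.pow_le_pow_right (by omega) (by norm_num)
          have h9 : (16 * D + 14) * 2 ^ n = (16 * D + 12) * 2 ^ n + 2 * 2 ^ n := by ring
          rw [h9]
          omega
  have h9 : (0 : ℝ) ≤ 2 ^ ((2 * D + 1) * n) := by positivity
  have h10 : X * ((1 / (D + 1 : ℝ)) ^ B * ((1 / 3) ^ D) ^ T * 0.1) ≤
      Cnt + E * 2 ^ ((16 * D + 14) * 2 ^ n) := by
    have h11 := mul_le_mul_of_nonneg_left herr hE
    linarith
  exact hmain.trans (mul_le_mul_of_nonneg_left h10 h9)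

end Pool.Agent.Lib.MP_a17b09_nt.AM
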