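import Pool.Agent.Lib.MP_a17b09_nt.AM.Stmts
import Pool.Agent.Lib.MP_a17b09_nt.BP.SieveL

/-!
Module G: the sieve for a fixed prime `l`.
-/

set_option autoImplicit false

namespace Pool.Agent.Lib.MP_a17b09_nt.AM

open Finset Pool.Agent.Lib.QuadParity Pool.Agent.MP_a17b09_nt.OM Pool.Agent.Lib.MP_a17b09_nt.BP

open Classical in
theorem stLow_38 (hA : StmtA) (hB : StSvD) (hPer : StPer) (hNb : StNb) : StLow := by
  intro D
  obtain ⟨N0, hN0⟩ := hB D
  refine ⟨N0, ?_⟩
  intro n hn Δ Q Y L M l hYD hM hl hlM hln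
  have hl2 : l ≠ 2 := by
    intro h
    rw [h] at hln
    have : 2 ^ 1 ≤ 2 ^ (2 ^ n) := Nat.pow_le_pow_right (by norm_num) Nat.one_le_two_pow
    omega
  have hnb : ∀ q : ℕ, q.Prime → nb2 (badA Δ Q l Y) q ≤ D * q := by
    intro q hq
    exact (hNb Δ Q l Y q hq).trans (Nat.mul_le_mul_right _ hYD)
  obtain ⟨bd, hbd⟩ : ∃ bd : ℕ → ℕ × ℕ → Prop, ∀ q s, bd q s ↔ (¬ q ∣ M ∧ badA Δ Q l Y q s) :=
    ⟨_, fun _ _ => Iff.rfl⟩
  have h := hN0 n hn (pts L M l) bd
    (fun q => if q ∣ M then 0 else (nb2 (badA Δ Q l Y) q : ℝ) / (q : ℝ) ^ 2)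
    ((l : ℝ) / (M : ℝ) ^ 2) (EE l)
    (by positivity) (EE_nonneg l) (by
      intro q hq h6 hqn
      have hq0 : (0 : ℝ) < q := by exact_mod_cast hq.pos
      split_ifs with hqM
      · exact ⟨le_refl _, by positivity⟩
      · refine ⟨by positivity, ?_⟩
        have h1 := hnb q hq
        have h2 : (nb2 (badA Δ Q l Y) q : ℝ) ≤ D * q := by exact_mod_cast h1
        rw [div_le_div_iff₀ (by positivity) hq0]
        nlinarith) (by
      intro P hP
      by_cases hall : ∀ q ∈ P, ¬ q ∣ M
      · have h1 := count_D hA (badA Δ Q l Y) (hPer Δ Q l Y) l hl hl2 L M hM hlM P (by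
          intro q hq
          refine ⟨(hP q hq).1, hall q hq, ?_⟩
          have := (hP q hq).2.2
          omega)
        have h2 : (pts L M l).filter (fun s => ∀ q ∈ P, bd q s) =
            (pts L M l).filter (fun s => ∀ q ∈ P, badA Δ Q l Y q s) := by
          apply Finset.filter_congr
          intro s _
          exact ⟨fun h q hq => ((hbd q s).1 (h q hq)).2, fun h q hq => (hbd q s).2 ⟨hall q hq, h q hq⟩⟩
        have h3 : ∏ q ∈ P, (if q ∣ M then (0 : ℝ) else
            (nb2 (badA Δ Q l Y) q : ℝ) / (q : ℝ) ^ 2) =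
            ∏ q ∈ P, ((nb2 (badA Δ Q l Y) q : ℝ) / (q : ℝ) ^ 2) := by
          apply Finset.prod_congr rfl
          intro q hq
          rw [if_neg (hall q hq)]
        rw [h2, h3]
        refine h1.trans ?_
        apply mul_le_mul_of_nonneg_left _ (EE_nonneg l)
        apply Finset.prod_le_prod
        · intro q _; positivity
        · intro q hq
          exact_mod_cast hnb q (hP q hq).1
      · push Not at hall
        obtain ⟨q, hq, hqM⟩ := hall
        have h2 : (pts L M l).filter (fun s => ∀ q ∈ P, bd q s) = ∅ := by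
          apply Finset.filter_eq_empty_iff.2
          intro s _ hs
          exact ((hbd q s).1 (hs q hq)).1 hqM
        have h3 : ∏ q ∈ P, (if q ∣ M then (0 : ℝ) else
            (nb2 (badA Δ Q l Y) q : ℝ) / (q : ℝ) ^ 2) = 0 := by
          apply Finset.prod_eq_zero hq
          rw [if_pos hqM]
        rw [h2, h3]
        simp only [card_empty, Nat.cast_zero, mul_zero, sub_zero, abs_zero]
        have := EE_nonneg l
        exact mul_nonneg this (Finset.prod_nonneg (fun q _ => by positivity)))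
  have h4 : (pts L M l).filter (fun s => ∀ q : ℕ, q.Prime → D < q → q ≤ 2 ^ (2 ^ n) →
        ¬ bd q s) = sftA Δ Q Y D L M l n := by
    unfold sftA
    apply Finset.filter_congr
    intro s _
    constructor
    · intro h q h1 h2 h3 h4 h5
      exact h q h1 h2 h3 ((hbd q s).2 ⟨h4, h5⟩)
    · intro h q h1 h2 h3 h4
      exact h q h1 h2 h3 ((hbd q s).1 h4).1 ((hbd q s).1 h4).2
  rw [h4] at h
  exact h

end Pool.Agent.Lib.MP_a17b09_nt.AM
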