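import Pool.Agent.Lib.MP_a17b09_nt.OM.All
import Pool.Agent.Lib.MP_a17b09_nt.BP.HypCount
import Pool.Agent.Lib.MP_a17b09_nt.AM.Final
import Pool.Agent.Lib.MP_a17b09_nt.AM.Sieve
import Pool.Agent.Lib.MP_a17b09_nt.AM.SieveL
import Pool.Agent.Lib.MP_a17b09_nt.AM.Local
import Pool.Agent.Lib.MP_a17b09_nt.AM.Facts
import Pool.Agent.Lib.MP_a17b09_nt.AM.PatO

/-!
Assembly: the analytic part and the case of odd moduli.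
-/

set_option autoImplicit false

namespace Pool.Agent.Lib.MP_a17b09_nt.AM

open Pool.Agent.Lib.QuadParity Pool.Agent.MP_a17b09_nt.OM Pool.Agent.Lib.MP_a17b09_nt.BP

theorem stEndA_all99 : StEndA :=
  stEndA_99 (stLow_38 stmtA stSvD_42 stPer_12 stNb_12) stFacts_5

theorem stPatO_all99 : StPatO := patO_53 (ct_fin (decouple ed pinsker) minor)

/-- the form of the conclusion -/
theorem form99 (a b c : ℤ) (m ρ t₀ h : ℕ) (hex : ∃ C : ℕ, 0 < C ∧ ∃ κ : ℝ, 0 < κ ∧ ∃ N₁ : ℕ,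
      ∀ N : ℕ, N₁ ≤ N →
      κ * ((N : ℝ) / (Real.log N) ^ C) ≤ ((goodA a b c m (ρ : ZMod m) t₀ h C N).card : ℝ)) :
    ∃ C : ℕ, 0 < C ∧ ∃ κ : ℝ, 0 < κ ∧ ∃ N₁ : ℕ, ∀ N : ℕ, N₁ ≤ N →
      ∃ S : Finset ℕ, κ * ((N : ℝ) / (Real.log N) ^ C) ≤ (S.card : ℝ) ∧
      ∀ t ∈ S, 1 ≤ t ∧ t ≤ N ∧ t ≡ t₀ [MOD h] ∧ 0 < a * (t : ℤ) ^ 2 + b * (t : ℤ) + c ∧
        ArithmeticFunction.cardFactors (a * (t : ℤ) ^ 2 + b * (t : ℤ) + c).natAbs ≤ C ∧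
        ArithmeticFunction.cardFactors (a * (t : ℤ) ^ 2 + b * (t : ℤ) + c).natAbs ≡ ρ [MOD m] ∧
        ∀ p : ℕ, p.Prime → (p : ℤ) ∣ a * (t : ℤ) ^ 2 + b * (t : ℤ) + c →
          p ≤ C ∨ (N : ℝ) ^ (1 / (C : ℝ)) < p := by
  classical
  obtain ⟨C, hC, κ, hκ, N₁, hN⟩ := hex
  refine ⟨C, hC, κ, hκ, N₁, fun N hN1 => ⟨goodA a b c m (ρ : ZMod m) t₀ h C N, hN N hN1, ?_⟩⟩
  intro t ht
  unfold goodA at ht
  rw [Finset.mem_filter, Finset.mem_Icc] at ht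
  obtain ⟨⟨h1, h2⟩, h3, h4, h5, h6, h7⟩ := ht
  exact ⟨h1, h2, h3, h4, h5, (ZMod.natCast_eq_natCast_iff _ _ _).mp h6, h7⟩

theorem final_odd99 (a b c : ℤ) (ha : 0 < a) (hΔ : ¬ IsSquare (b ^ 2 - 4 * a * c))
    (m ρ t₀ h : ℕ) (hm : Odd m) (hh : 0 < h) :
    ∃ C : ℕ, 0 < C ∧ ∃ κ : ℝ, 0 < κ ∧ ∃ N₁ : ℕ, ∀ N : ℕ, N₁ ≤ N →
      κ * ((N : ℝ) / (Real.log N) ^ C) ≤ ((goodA a b c m (ρ : ZMod m) t₀ h C N).card : ℝ) := by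
  obtain ⟨r, hr⟩ : ∃ r : ℕ, (r : ℤ) = 2 * a * h :=
    ⟨(2 * a * h).toNat, Int.toNat_of_nonneg (by positivity)⟩
  have hr0 : 0 < r := by
    have hh' : (0 : ℤ) < h := by exact_mod_cast hh
    have : (0 : ℤ) < r := by rw [hr]; positivity
    exact_mod_cast this
  exact stEndA_all99 a b c ha hΔ m (ρ : ZMod m) t₀ h r hh hr
    (stPatO_all99 _ hΔ m hm _ r hr0 _)

end Pool.Agent.Lib.MP_a17b09_nt.AM
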