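import Pool.Agent.Lib.MP_a17b09_nt.AM.Stmts
import Pool.Agent.Lib.MP_a17b09_nt.OM.Fin
import Pool.Agent.Lib.MP_a17b09_nt.OE.Stmts2

/-!
Module D: the pattern property for even moduli.
-/

set_option autoImplicit false

namespace Pool.Agent.Lib.MP_a17b09_nt.AM

open Finset Pool.Agent.Lib.QuadParity Pool.Agent.MP_a17b09_nt.OM Pool.Agent.Lib.MP_a17b09_nt.BP
open Pool.Agent.Lib.QuadThree (mf_pair)

/-- one step, `n` arbitrary -/
theorem step38 (a b c : ℤ) (Δ : ℤ) (hΔ : Δ = b ^ 2 - 4 * a * c) (n k e : ℕ)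
    (hn : 0 < n) (hk0 : 0 < k) (he : e = 1 ∨ e = 2) (s : ℤ)
    (hn2 : IsCoprime (2 * a) (n : ℤ)) (hk2 : IsCoprime (2 * a) (k : ℤ)) (hnk : Nat.Coprime n k)
    (hnG : (n : ℤ) ∣ Gf Δ s) (hkG : (k : ℤ) ∣ Gf Δ s)
    (h1 : 0 < Gf Δ s) (h2 : 0 < Gf Δ (s + n * (e * k)))
    (hty : 2 * a ∣ s - b ∨ (e = 1 ∧ 2 * a ∣ s + n * k + b)) :
    ∃ l : ℤ, 0 < l ∧ Gf Δ s = (n * (e * k)) * l ∧ 2 * a ∣ s + l - b ∧ 0 < Gf Δ (s + l) ∧
      l ∣ Gf Δ (s + l) ∧
      Om (Gf Δ (s + l)) + 2 * Om ((n : ℤ) * (e * k)) =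
        Om (Gf Δ s) + Om (Gf Δ (s + n * (e * k))) ∧
      Gf Δ (s + l) * ((n : ℤ) * (e * k)) ^ 2 = Gf Δ s * Gf Δ (s + n * (e * k)) := by
  have hfour : ∀ x : ℤ, 2 * a ∣ x - b → 4 * a ∣ Gf Δ x := by
    rintro x ⟨v, hv⟩
    refine ⟨v * (b + a * v) + c, ?_⟩
    have hx : x = b + 2 * a * v := by linear_combination hv
    rw [Gf_eq, hΔ, hx]; ring
  have hfour' : ∀ x : ℤ, 2 * a ∣ x + b → 4 * a ∣ Gf Δ x := by
    rintro x ⟨v, hv⟩
    refine ⟨v * (-b + a * v) + c, ?_⟩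
    have hx : x = -b + 2 * a * v := by linear_combination hv
    rw [Gf_eq, hΔ, hx]; ring
  have hcnk : IsCoprime (2 * a) ((n : ℤ) * k) := hn2.mul_right hk2
  have hnk' : IsCoprime (n : ℤ) (k : ℤ) := Nat.isCoprime_iff_coprime.2 hnk
  have hD : (n : ℤ) * k ∣ Gf Δ s := hnk'.mul_dvd hnG hkG
  have hD2 : (n : ℤ) * (e * k) ∣ Gf Δ s := by
    rcases he with rfl | rfl
    · simpa using hD
    · rcases hty with h | ⟨h, _⟩
      · have h3 : (2 : ℤ) ∣ Gf Δ s := dvd_trans ⟨2 * a, by ring⟩ (hfour s h)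
        have h4 : IsCoprime (2 : ℤ) ((n : ℤ) * k) :=
          hcnk.of_isCoprime_of_dvd_left (Dvd.intro a rfl)
        have h5 := h4.mul_dvd h3 hD
        have e1 : (n : ℤ) * (((2 : ℕ) : ℤ) * k) = 2 * (n * k) := by push_cast; ring
        rw [e1]; exact h5
      · exact absurd h (by norm_num)
  have he0 : 0 < e := by rcases he with rfl | rfl <;> norm_num
  have hDpos : (0 : ℤ) < (n : ℤ) * (e * k) := by positivity
  obtain ⟨l, hl⟩ := hD2
  obtain ⟨hl0, hGl, hlG, hOm⟩ := pair_Om Δ s _ l hDpos h1 h2 hl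
  obtain ⟨e1, e2⟩ := mf_pair 0 (-Δ) s ((n : ℤ) * (e * k)) l hl
  have e1a : Gf Δ (s + (n : ℤ) * (e * k)) =
      (n : ℤ) * (e * k) * (l + 2 * s + 0 + (n : ℤ) * (e * k)) := e1
  have e2a : Gf Δ (s + l) = l * (l + 2 * s + 0 + (n : ℤ) * (e * k)) := e2
  refine ⟨l, hl0, hl, ?_, hGl, hlG, hOm, ?_⟩
  · rcases hty with h | ⟨h, h'⟩
    · have h3 : 2 * a ∣ ((n : ℤ) * k) * l := by
        have h4 := hfour s h
        rw [hl] at h4
        rcases he with rfl | rfl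
        · have h5 : 2 * a ∣ (n : ℤ) * (((1 : ℕ) : ℤ) * k) * l :=
            dvd_trans ⟨2, by ring⟩ h4
          simpa using h5
        · obtain ⟨w, hw⟩ := h4
          refine ⟨w, ?_⟩
          have h6 : (2 : ℤ) * ((n : ℤ) * k * l) = 2 * (2 * a * w) := by
            push_cast at hw
            linear_combination hw
          exact mul_left_cancel₀ two_ne_zero h6
      have h4 : 2 * a ∣ l := hcnk.dvd_of_dvd_mul_left h3
      have e1 : s + l - b = (s - b) + l := by ring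
      rw [e1]
      exact dvd_add h h4
    · subst h
      have h3 := hfour' _ h'
      have e1' : Gf Δ (s + n * k) = (n * k) * (l + 2 * s + n * k) := by
        have e3 := e1a
        rw [Nat.cast_one, one_mul] at e3
        rw [e3]
        ring
      rw [e1'] at h3
      have h4 : 2 * a ∣ ((n : ℤ) * k) * (l + 2 * s + n * k) := dvd_trans ⟨2, by ring⟩ h3
      have h5 := hcnk.dvd_of_dvd_mul_left h4
      have e4 : s + l - b = (l + 2 * s + n * k) - (s + n * k + b) := by ring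
      rw [e4]
      exact dvd_sub h5 h'
  · rw [e1a, e2a, hl]
    ring

/-- the pattern property for even moduli -/
theorem patE_even38 (hct : StCTE) (hk : StKap) (a b c : ℤ) (ha : 0 < a) (hab : IsCoprime a b)
    (hsq : ¬ IsSquare (b ^ 2 - 4 * a * c)) (m : ℕ) (hme : Even m) (hm : 0 < m) (j R : ℕ)
    (hR : (R : ℤ) = 2 * a) :
    Pat (b ^ 2 - 4 * a * c) m (((Om a + 2 * j : ℕ) : ZMod m) + ((Om (4 * a) : ℕ) : ZMod m))
      R b := by
  have hsq0 : b ^ 2 - 4 * a * c ≠ 0 := by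
    intro h
    rw [h] at hsq
    exact hsq ⟨0, by norm_num⟩
  obtain ⟨κ, K0, hK0pos, hκ, haK, haκ, hroot1, hroot2⟩ := hk a b c ha hab hsq0
  obtain ⟨Δ, hΔdef⟩ : ∃ Δ : ℤ, Δ = b ^ 2 - 4 * a * c := ⟨_, rfl⟩
  rw [← hΔdef] at hsq hsq0 hroot1 hroot2
  have hRpos : 0 < R := by
    have : (0 : ℤ) < 2 * a := by positivity
    rw [← hR] at this
    exact_mod_cast this
  have hRK : R ∣ K0 := by
    rw [← hR] at haK
    exact_mod_cast haK
  obtain ⟨y1, hy1⟩ : ∃ y1 : ℕ, (R : ℤ) ∣ (y1 : ℤ) - b := by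
    have hR0 : (R : ℤ) ≠ 0 := by exact_mod_cast hRpos.ne'
    refine ⟨(b % R).toNat, ?_⟩
    rw [Int.toNat_of_nonneg (Int.emod_nonneg b hR0)]
    have h5 := Int.emod_add_mul_ediv b R
    exact ⟨-(b / R), by linear_combination h5⟩
  obtain ⟨g0, hg0⟩ : ∃ g0 : ZMod m, g0 = ((Om a + j + 1 : ℕ) : ZMod m) := ⟨_, rfl⟩
  have hg2 : ((Om a + 2 * j : ℕ) : ZMod m) + ((Om (4 * a) : ℕ) : ZMod m) = 2 * g0 := by
    have h1 : Om (4 * a) = 2 + Om a := by
      have e1 : (4 * a : ℤ) = ((2 : ℕ) : ℤ) * (((2 : ℕ) : ℤ) * a) := by push_cast; ring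
      rw [e1, Om_mul (by norm_num) (mul_ne_zero (by norm_num) ha.ne'), Om_mul (by norm_num) ha.ne',
        Om_prime Nat.prime_two]
      omega
    rw [h1, hg0]
    push_cast
    ring
  rw [hg2, ← hΔdef]
  obtain ⟨Y, hCT⟩ := hct m hme hm K0 κ R hK0pos hκ hRpos hRK y1 g0 g0 (g0 + 1)
  refine ⟨Y, R, hRpos, ?_⟩
  intro Q hQ hRQ hpY n s g hn hnQ hQs hg
  -- primes up to `Y` do not divide `n`
  have hpn : ∀ p : ℕ, p.Prime → p ≤ Y → ¬ p ∣ n := by
    intro p hp hpY' hpn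
    have h1 : p ∣ Q := hpY p hp hpY'
    have h2 : n ≡ 1 [MOD p] := hnQ.of_dvd h1
    have h3 : p ∣ 1 := (h2.dvd_iff dvd_rfl).1 hpn
    exact hp.one_lt.ne' (Nat.dvd_one.1 h3)
  have hidx : ∀ p : ℕ, ∃ i : ℕ, p.Prime → (p ≡ 1 [MOD K0] ∨ p ≡ κ [MOD K0]) → ¬ p ∣ n →
      (p : ℤ) ∣ Gf Δ (s + n * i) := by
    intro p
    by_cases h : p.Prime ∧ (p ≡ 1 [MOD K0] ∨ p ≡ κ [MOD K0]) ∧ ¬ p ∣ n
    · obtain ⟨hp, hpK, hpn'⟩ := h
      obtain ⟨ρ, hρ⟩ := hpK.elim (hroot2 p hp) (hroot1 p hp)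
      obtain ⟨i, hi⟩ := exists_idx Δ p n hp hpn' s ρ hρ
      exact ⟨i, fun _ _ _ => hi⟩
    · exact ⟨0, fun h1 h2 h3 => absurd ⟨h1, h2, h3⟩ h⟩
  choose r hr using hidx
  obtain ⟨y, k, hyk, hk0, hksq, hkκ, hkp, hcase⟩ := hCT (fun i => ((Om (g i) : ℕ) : ZMod m)) r
  have hkY : k ≤ Y := by omega
  have hnk : Nat.Coprime n k := by
    rw [Nat.coprime_iff_gcd_eq_one]
    by_contra hne
    obtain ⟨p, hp, hpd⟩ := Nat.exists_prime_and_dvd hne
    have h1 := hpd.trans (Nat.gcd_dvd_right n k)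
    exact hpn p hp ((Nat.le_of_dvd hk0 h1).trans hkY) (hpd.trans (Nat.gcd_dvd_left n k))
  obtain ⟨s', hs'⟩ : ∃ s' : ℤ, s' = s + n * y := ⟨_, rfl⟩
  have hkG : (k : ℤ) ∣ Gf Δ s' := by
    apply sqfree_dvd k hksq
    intro p hp hpk
    obtain ⟨h1, h2⟩ := hkp p hp hpk
    have hpn' : ¬ p ∣ n := hpn p hp ((Nat.le_of_dvd hk0 hpk).trans hkY)
    have h3 := hr p hp h1 hpn'
    refine (Gf_dvd_of Δ p _ _ ?_).2 h3
    have h4 : (p : ℤ) ∣ (y : ℤ) - (r p : ℤ) := Nat.modEq_iff_dvd.1 h2.symm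
    have e : s' - (s + n * (r p : ℕ)) = n * ((y : ℤ) - r p) := by rw [hs']; ring
    rw [e]
    exact h4.mul_left _
  obtain ⟨hgy, hGy⟩ := hg y (by omega)
  have hnG : (n : ℤ) ∣ Gf Δ s' := by
    rw [hs', hGy]
    exact Dvd.intro _ rfl
  have hn1R : (R : ℤ) ∣ (n : ℤ) - 1 := by
    have h1 : (Q : ℤ) ∣ (n : ℤ) - ((1 : ℕ) : ℤ) := Nat.modEq_iff_dvd.1 hnQ.symm
    have h2 : (R : ℤ) ∣ (Q : ℤ) := by exact_mod_cast hRQ
    have h3 := h2.trans h1
    push_cast at h3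
    exact h3
  have hkκR : (R : ℤ) ∣ (k : ℤ) - κ := by
    have h1 : (K0 : ℤ) ∣ (k : ℤ) - (κ : ℤ) := Nat.modEq_iff_dvd.1 hkκ.symm
    have h2 : (R : ℤ) ∣ (K0 : ℤ) := by exact_mod_cast hRK
    exact h2.trans h1
  have hRs : (R : ℤ) ∣ s := by
    have h2 : (R : ℤ) ∣ (Q : ℤ) := by exact_mod_cast hRQ
    exact h2.trans hQs
  have hsy : ∀ x : ℤ, (R : ℤ) ∣ (y : ℤ) - x → (R : ℤ) ∣ s' - x := by
    intro x hx
    have e : s' - x = s + (n - 1) * y + (y - x) := by rw [hs']; ring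
    rw [e]
    exact dvd_add (dvd_add hRs (hn1R.mul_right _)) hx
  have hn2' : IsCoprime (2 * a) (n : ℤ) := by
    rw [← hR]
    obtain ⟨v, hv⟩ := hn1R
    exact ⟨-v, 1, by linear_combination hv⟩
  have hk2' : IsCoprime (2 * a) (k : ℤ) := by
    rw [← hR]
    have h1 : k.Coprime K0 := by
      have h2 := hkκ.gcd_eq
      unfold Nat.Coprime at hκ ⊢
      rw [Nat.gcd_comm k K0, Nat.gcd_comm K0 k, h2, hκ]
    exact (Nat.isCoprime_iff_coprime.2 (h1.symm.coprime_dvd_left hRK))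
  have hn0 : (0 : ℤ) < n := by exact_mod_cast hn
  have hp1 : 0 < Gf Δ s' := by rw [hs', hGy]; exact mul_pos hn0 hgy
  have hsD : ∀ e : ℕ, s' + (n : ℤ) * (e * k) = s + n * ((y + e * k : ℕ) : ℤ) := by
    intro e
    rw [hs']
    push_cast
    ring
  -- the three types
  have hmain : ∃ e : ℕ, (e = 1 ∨ e = 2) ∧
      (2 * a ∣ s' - b ∨ (e = 1 ∧ 2 * a ∣ s' + n * k + b)) ∧
      ((Om (g y) : ℕ) : ZMod m) + ((Om (g (y + e * k)) : ℕ) : ZMod m) =
        2 * g0 - 2 + 2 * (e + ((ArithmeticFunction.cardFactors k : ℕ) : ZMod m)) := by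
    rcases hcase with ⟨h1, h2⟩ | ⟨h1, h2⟩ | ⟨h1, h2⟩
    · refine ⟨1, Or.inl rfl, Or.inl ?_, ?_⟩
      · have h3 : (R : ℤ) ∣ (y : ℤ) - b := by
          have h4 : (R : ℤ) ∣ (y : ℤ) - (y1 : ℤ) := Nat.modEq_iff_dvd.1 h1.symm
          have e : (y : ℤ) - b = (y - y1) + (y1 - b) := by ring
          rw [e]; exact dvd_add h4 hy1
        have h5 := hsy b h3
        rwa [hR] at h5
      · rw [one_mul, h2]
        push_cast
        ring
    · refine ⟨1, Or.inl rfl, Or.inr ⟨rfl, ?_⟩, ?_⟩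
      · have h3 : (R : ℤ) ∣ (y : ℤ) - (b + κ) := by
          have h4 : (R : ℤ) ∣ (y : ℤ) - ((y1 + κ : ℕ) : ℤ) := Nat.modEq_iff_dvd.1 h1.symm
          have e : (y : ℤ) - (b + κ) = (y - ((y1 + κ : ℕ) : ℤ)) + (y1 - b) := by
            push_cast; ring
          rw [e]; exact dvd_add h4 hy1
        have h5 := hsy _ h3
        have h6 : (R : ℤ) ∣ 2 * ((κ : ℤ) + b) := by
          rw [hR]; exact mul_dvd_mul_left 2 haκ
        have e : s' + n * k + b = (s' - (b + κ)) + ((n - 1) * k + (k - κ)) + 2 * (κ + b) := by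
          ring
        rw [← hR, e]
        exact dvd_add (dvd_add h5 (dvd_add (hn1R.mul_right _) hkκR)) h6
      · rw [one_mul, h2]
        push_cast
        ring
    · refine ⟨2, Or.inr rfl, Or.inl ?_, ?_⟩
      · have h3 : (R : ℤ) ∣ (y : ℤ) - b := by
          have h4 : (R : ℤ) ∣ (y : ℤ) - (y1 : ℤ) := Nat.modEq_iff_dvd.1 h1.symm
          have e : (y : ℤ) - b = (y - y1) + (y1 - b) := by ring
          rw [e]; exact dvd_add h4 hy1
        have h5 := hsy b h3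
        rwa [hR] at h5
      · rw [h2]
        push_cast
        ring
  obtain ⟨e, he, hty, hχ⟩ := hmain
  have he2 : e ≤ 2 := by rcases he with rfl | rfl <;> norm_num
  have he0 : 0 < e := by rcases he with rfl | rfl <;> norm_num
  have hek : e * k ≤ 2 * k := Nat.mul_le_mul_right k he2
  obtain ⟨hgk, hGk⟩ := hg (y + e * k) (by omega)
  have hp2 : 0 < Gf Δ (s' + (n : ℤ) * (e * k)) := by rw [hsD, hGk]; exact mul_pos hn0 hgk
  obtain ⟨l, hl0, hl, hlR, hGl, hlG, hOm, hprod⟩ := step38 a b c Δ hΔdef n k e hn hk0 he s' hn2'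
    hk2' hnk hnG hkG hp1 hp2 hty
  have hekz : ((e * k : ℕ) : ℤ) = (e : ℤ) * k := by push_cast; ring
  have hek0 : (0 : ℤ) < (e : ℤ) * k := by positivity
  refine ⟨y, e * k, l, by omega, Nat.mul_pos he0 hk0, hl0, ?_, ?_, ?_, ?_, ?_, ?_⟩
  · rw [hekz]
    rw [hs', hGy] at hl
    have h1 : (n : ℤ) * g y = n * ((e : ℤ) * k * l) := by rw [hl]; ring
    exact mul_left_cancel₀ hn0.ne' h1
  · rw [← hs', hR]; exact hlR
  · rw [← hs']; exact hGl
  · rw [← hs']; exact hlG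
  · rw [← hs', hekz]
    rw [hsD, hGk] at hprod
    have h0 : Gf Δ s' = n * g y := by rw [hs', hGy]
    rw [h0] at hprod
    have h1 : ((n : ℤ) ^ 2) * (Gf Δ (s' + l) * ((e : ℤ) * k) ^ 2) =
        (n : ℤ) ^ 2 * (g y * g (y + e * k)) := by
      linear_combination hprod
    exact mul_left_cancel₀ (pow_ne_zero 2 hn0.ne') h1
  · rw [← hs']
    rw [hsD, hGk, Om_mul hn0.ne' hek0.ne', Om_mul hn0.ne' hgk.ne'] at hOm
    have h0 : Gf Δ s' = n * g y := by rw [hs', hGy]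
    rw [h0, Om_mul hn0.ne' hgy.ne'] at hOm
    have he0' : (e : ℤ) ≠ 0 := by exact_mod_cast he0.ne'
    have hk0' : (k : ℤ) ≠ 0 := by exact_mod_cast hk0.ne'
    rw [Om_mul he0' hk0'] at hOm
    have e5 : Om (k : ℤ) = ArithmeticFunction.cardFactors k := by
      unfold Om
      rw [Int.natAbs_natCast k]
    have e6 : 1 + Om (e : ℤ) = e := by
      rcases he with rfl | rfl
      · unfold Om
        simp
      · rw [Om_prime Nat.prime_two]
    have h3 : Om (Gf Δ (s' + l)) + 2 * (e + ArithmeticFunction.cardFactors k) =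
        Om (g y) + Om (g (y + e * k)) + 2 := by
      rw [e5] at hOm
      omega
    have h2 := congrArg (fun x : ℕ => (x : ZMod m)) h3
    push_cast at h2
    linear_combination h2 + hχ

theorem stPatE_38 (hct : StCTE) (hk : StKap) : StPatE := by
  intro a b c ha hab hsq m hm j R hR
  obtain ⟨Y, R', hR', h⟩ := patE_even38 hct hk a b c ha hab hsq (2 * m) (even_two_mul m) (by omega)
    j R hR
  refine ⟨Y, R', hR', ?_⟩
  intro Q hQ hRQ hpY n s g hn hnQ hQs hg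
  obtain ⟨i, k, l, h1, h2, h3, h4, h5, h6, h7, h8, h9⟩ := h Q hQ hRQ hpY n s g hn hnQ hQs hg
  refine ⟨i, k, l, h1, h2, h3, h4, h5, h6, h7, h8, ?_⟩
  have h10 : ((Om (Gf (b ^ 2 - 4 * a * c) (s + n * i + l)) : ℕ) : ZMod (2 * m)) =
      ((Om a + 2 * j + Om (4 * a) : ℕ) : ZMod (2 * m)) := by
    rw [h9]
    push_cast
    ring
  rw [ZMod.natCast_eq_natCast_iff] at h10
  have h11 := h10.of_dvd (Dvd.intro_left 2 rfl : m ∣ 2 * m)
  rw [← ZMod.natCast_eq_natCast_iff] at h11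
  rw [h11]
  push_cast
  ring

end Pool.Agent.Lib.MP_a17b09_nt.AM
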