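import Pool.Agent.Lib.MP_a17b09_nt.OE.AllE
import Pool.Agent.Lib.MP_a17b09_nt.AM.AllO
import Pool.Agent.Lib.MP_a17b09_nt.AM.PatE

/-!
Assembly: the case of all moduli, and both cases together.
-/

set_option autoImplicit false

namespace Pool.Agent.Lib.MP_a17b09_nt.AM

open Pool.Agent.Lib.QuadParity Pool.Agent.MP_a17b09_nt.OM Pool.Agent.Lib.MP_a17b09_nt.BP

theorem final_even99 (hE : StPatE) (a b c : ℤ) (ha : 0 < a) (hab : IsCoprime a b)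
    (hΔ : ¬ IsSquare (b ^ 2 - 4 * a * c)) (m ρ t₀ : ℕ) (hm : 0 < m)
    (hρ : ρ ≡ ArithmeticFunction.cardFactors a.natAbs [MOD 2]) :
    ∃ C : ℕ, 0 < C ∧ ∃ κ : ℝ, 0 < κ ∧ ∃ N₁ : ℕ, ∀ N : ℕ, N₁ ≤ N →
      κ * ((N : ℝ) / (Real.log N) ^ C) ≤ ((goodA a b c m (ρ : ZMod m) t₀ 1 C N).card : ℝ) := by
  classical
  obtain ⟨w, hw⟩ : ∃ w : ℕ, w = ArithmeticFunction.cardFactors a.natAbs := ⟨_, rfl⟩
  have hwO : Om a = w := by rw [hw]; rfl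
  rw [← hw] at hρ
  obtain ⟨j, hj⟩ : ∃ j : ℕ, w + 2 * j = ρ + 2 * (m * w) := by
    refine ⟨(ρ + 2 * (m * w) - w) / 2, ?_⟩
    have h1 : w ≤ m * w := Nat.le_mul_of_pos_left w hm
    unfold Nat.ModEq at hρ
    omega
  have hcls : ((Om a + 2 * j : ℕ) : ZMod m) = ((ρ : ℕ) : ZMod m) := by
    rw [hwO, hj]
    push_cast
    rw [ZMod.natCast_self]
    ring
  obtain ⟨r, hr⟩ : ∃ r : ℕ, (r : ℤ) = 2 * a := ⟨(2 * a).toNat, Int.toNat_of_nonneg (by positivity)⟩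
  have hP := hE a b c ha hab hΔ m hm j r hr
  rw [hcls] at hP
  obtain ⟨C, hC, κ, hκ, N₁, hN⟩ := stEndA_all99 a b c ha hΔ m (ρ : ZMod m) 0 1 r one_pos
    (by rw [hr]; push_cast; ring) (by
      have e : 2 * a * ((0 : ℕ) : ℤ) + b = b := by push_cast; ring
      rw [e]; exact hP)
  refine ⟨C, hC, κ, hκ, N₁, fun N hN1 => (hN N hN1).trans ?_⟩
  refine Nat.cast_le.mpr (Finset.card_le_card ?_)
  intro t ht
  unfold goodA at ht ⊢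
  rw [Finset.mem_filter] at ht ⊢
  exact ⟨ht.1, Nat.modEq_one, ht.2.2⟩

theorem final99 (hE : StPatE) (a b c : ℤ) (ha : 0 < a) (hΔ : ¬ IsSquare (b ^ 2 - 4 * a * c))
    (m ρ t₀ h : ℕ) (hm : 0 < m) (hh : 0 < h)
    (hcase : Odd m ∨ (h = 1 ∧ IsCoprime a b ∧
      ρ ≡ ArithmeticFunction.cardFactors a.natAbs [MOD 2])) :
    ∃ C : ℕ, 0 < C ∧ ∃ κ : ℝ, 0 < κ ∧ ∃ N₁ : ℕ, ∀ N : ℕ, N₁ ≤ N →
      ∃ S : Finset ℕ, κ * ((N : ℝ) / (Real.log N) ^ C) ≤ (S.card : ℝ) ∧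
      ∀ t ∈ S, 1 ≤ t ∧ t ≤ N ∧ t ≡ t₀ [MOD h] ∧ 0 < a * (t : ℤ) ^ 2 + b * (t : ℤ) + c ∧
        ArithmeticFunction.cardFactors (a * (t : ℤ) ^ 2 + b * (t : ℤ) + c).natAbs ≤ C ∧
        ArithmeticFunction.cardFactors (a * (t : ℤ) ^ 2 + b * (t : ℤ) + c).natAbs ≡ ρ [MOD m] ∧
        ∀ p : ℕ, p.Prime → (p : ℤ) ∣ a * (t : ℤ) ^ 2 + b * (t : ℤ) + c →
          p ≤ C ∨ (N : ℝ) ^ (1 / (C : ℝ)) < p := by
  rcases hcase with hodd | ⟨h1, hab, hρ⟩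
  · exact form99 a b c m ρ t₀ h (final_odd99 a b c ha hΔ m ρ t₀ h hodd hh)
  · subst h1
    exact form99 a b c m ρ t₀ 1 (final_even99 hE a b c ha hab hΔ m ρ t₀ hm hρ)

end Pool.Agent.Lib.MP_a17b09_nt.AM
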