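import Pool.Agent.Lib.MP_a17b09_nt.AM.Frame
import Pool.Agent.Lib.QuadThree.Setup
import Pool.Agent.Lib.MP_a17b09_nt.OM.Fin

/-!
From sifted points to arguments.
-/

set_option autoImplicit false

namespace Pool.Agent.Lib.MP_a17b09_nt.AM

open Finset Pool.Agent.Lib.QuadParity Pool.Agent.Lib.QuadThree Pool.Agent.MP_a17b09_nt.OM
  Pool.Agent.Lib.MP_a17b09_nt.BP

/-- the pattern property for fixed `Y` and `Q` -/
def PatQ (Δ : ℤ) (m : ℕ) (c : ZMod m) (r : ℕ) (τ : ℤ) (Y Q : ℕ) : Prop :=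
  ∀ (n : ℕ) (s : ℤ) (g : ℕ → ℤ), 0 < n → n ≡ 1 [MOD Q] → (Q : ℤ) ∣ s →
    (∀ i : ℕ, i ≤ Y → 0 < g i ∧ Gf Δ (s + n * i) = n * g i) →
    ∃ (i k : ℕ) (l : ℤ), i + k ≤ Y ∧ 0 < k ∧ 0 < l ∧ g i = k * l ∧
      (r : ℤ) ∣ s + n * i + l - τ ∧ 0 < Gf Δ (s + n * i + l) ∧
      l ∣ Gf Δ (s + n * i + l) ∧
      Gf Δ (s + n * i + l) * (k : ℤ) ^ 2 = g i * g (i + k) ∧
      ((Om (Gf Δ (s + n * i + l)) : ℕ) : ZMod m) = c

/-- few prime factors -/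
theorem Om_le_of (g : ℤ) (z D E B : ℕ) (hg : 0 < g) (hz : 1 ≤ z)
    (h1 : ∀ p : ℕ, p.Prime → (p : ℤ) ∣ g → p ≤ D ∨ z < p)
    (h2 : ∀ p : ℕ, p.Prime → p ≤ D → ¬ (p : ℤ) ^ E ∣ g)
    (hB : g < ((z ^ (B + 1) : ℕ) : ℤ)) : Om g ≤ D * E + B := by
  obtain ⟨μ, h3, h4⟩ := rough_bound' g.natAbs z D E (Int.natAbs_ne_zero.2 hg.ne') (by
      intro p hp hpD hd
      apply h2 p hp hpD
      have : ((p ^ E : ℕ) : ℤ) ∣ g := Int.natCast_dvd.2 hd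
      exact_mod_cast this) (by
      intro p hp hpD hd
      rcases h1 p hp (Int.natCast_dvd.2 hd) with h | h
      · omega
      · exact h.le)
  have h5 : ((z ^ μ : ℕ) : ℤ) ≤ g := by
    have : ((z ^ μ : ℕ) : ℤ) ≤ (g.natAbs : ℤ) := by exact_mod_cast h4
    rwa [Int.natAbs_of_nonneg hg.le] at this
  have h6 : z ^ μ < z ^ (B + 1) := by
    have := lt_of_le_of_lt h5 hB
    exact_mod_cast this
  have h7 : μ ≤ B := by
    by_contra hcon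
    push Not at hcon
    have := Nat.pow_le_pow_right hz (show B + 1 ≤ μ by omega)
    omega
  unfold Om
  omega

theorem one_pointA (hF : StFacts) (a b c : ℤ) (ha : 0 < a) (Δ : ℤ)
    (hΔd : Δ = b ^ 2 - 4 * a * c) (hΔ : ¬ IsSquare Δ)
    (m : ℕ) (ρ : ZMod m) (t0 h r : ℕ) (hr : (r : ℤ) = 2 * a * h) (Y D E Q M L n X N B C : ℕ)
    (hP : PatQ Δ m (ρ + ((Om (4 * a) : ℕ) : ZMod m)) r (2 * a * t0 + b) Y Q)
    (hQ : 0 < Q) (hM : M = Q ^ 2) (hDY : 2 * (Y + 1) ≤ D) (hE : Y ^ 2 + Δ.natAbs < 2 ^ E)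
    (hpQ : ∀ p : ℕ, p.Prime → p ≤ D → p ^ E ∣ Q) (hpQ' : ∀ p : ℕ, p.Prime → p ∣ Q → p ≤ D)
    (hL : 4 * (|Δ| + 1) * (Q : ℤ) ^ 2 + 4 ≤ (L : ℤ)) (hX : 2 * a + |b| ≤ (X : ℤ))
    (hB : 2 * (1 + |Δ|) * ((Y : ℤ) + 1) ^ 2 * (((L : ℤ) + 1) ^ 2 * (2 * X)) ^ 2 <
      ((2 ^ (2 ^ n)) ^ (B + 1) : ℕ))
    (hN : 2 * (1 + |Δ|) * ((Y : ℤ) + 1) ^ 2 * (((L : ℤ) + 1) ^ 2 * (2 * X)) ^ 2 + |b| ≤ (N : ℤ))
    (hC : 2 * (D * E + B) ≤ C) (hDC : D ≤ C) (hz : (N : ℝ) ^ (1 / (C : ℝ)) ≤ (2 : ℝ) ^ (2 ^ n))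
    (l : ℕ) (hl : l.Prime) (hlM : ¬ l ∣ M) (hXl : X < l) (hlX : l ≤ 2 * X) (s : ℕ × ℕ)
    (hs : s ∈ sftA Δ Q Y D L M l n) :
    ∃ (i k t : ℕ) (x l' : ℤ), Fr Δ Q L l s.1 s.2 x ∧ t ∈ goodA a b c m ρ t0 h C N ∧
      i ≤ Y ∧ k ≤ Y ∧ 0 < k ∧ 0 < l' ∧ gF Δ Q l s.1 s.2 x i = k * l' ∧
      2 * a * (t : ℤ) + b = sF Δ Q l s.1 s.2 x + nF Δ Q l s.1 * i + l' ∧
      l' ∣ 4 * a * (a * (t : ℤ) ^ 2 + b * t + c) := by
  classical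
  obtain ⟨x, hFr, hQx, hp1, hp2⟩ := hF Δ Y D E Q L M l n hΔ hQ hM hDY hE hpQ hpQ' hL hl hlM s hs
  obtain ⟨id1, id2, id3⟩ := stIdent_99 _ _ _ _ _ _ _ hFr
  obtain ⟨sz1, sz2, sz3⟩ := stSize_99 _ _ _ _ _ _ _ hFr Y
  obtain ⟨n', hn'⟩ : ∃ n' : ℤ, n' = nF Δ Q l s.1 := ⟨_, rfl⟩
  obtain ⟨s', hs'⟩ : ∃ s' : ℤ, s' = sF Δ Q l s.1 s.2 x := ⟨_, rfl⟩
  obtain ⟨g, hg⟩ : ∃ g : ℤ → ℤ, ∀ i, g i = gF Δ Q l s.1 s.2 x i := ⟨_, fun _ => rfl⟩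
  simp only [← hn', ← hs', ← hg] at id1 sz1 sz2 sz3 hp1 hp2 ⊢
  have hl0 : (0 : ℤ) < l := by exact_mod_cast hl.pos
  have hn'0 : 0 < n' := lt_of_le_of_lt (by positivity) sz1
  have hn'c : ((n'.toNat : ℕ) : ℤ) = n' := Int.toNat_of_nonneg hn'0.le
  -- congruences
  have hu1 : (Q : ℤ) ∣ (s.1 : ℤ) - 1 := by
    unfold sftA pts at hs
    rw [Finset.mem_filter, Finset.mem_filter] at hs
    have h1 := hs.1.2.1.1
    have h2 : (M : ℤ) ∣ (s.1 : ℤ) - ((1 : ℕ) : ℤ) := Nat.modEq_iff_dvd.1 h1.symm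
    have h3 : (Q : ℤ) ∣ (M : ℤ) := by rw [hM]; push_cast; exact dvd_pow_self _ two_ne_zero
    have h4 := h3.trans h2
    push_cast at h4
    exact h4
  have hn'1 : n'.toNat ≡ 1 [MOD Q] := by
    apply Nat.ModEq.symm
    rw [Nat.modEq_iff_dvd, hn'c, hn']
    unfold nF
    obtain ⟨v, hv⟩ := hu1
    refine ⟨v * (s.1 + 1) - Δ * (l * (Q * l)), ?_⟩
    push_cast
    linear_combination ((s.1 : ℤ) + 1) * hv
  have hs'Q : (Q : ℤ) ∣ s' := by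
    rw [hs']
    unfold sF
    obtain ⟨v, hv⟩ := hQx
    refine ⟨s.1 * v - Δ * l * s.2, ?_⟩
    rw [hv]; ring
  -- the pattern
  obtain ⟨i, k, l', hik, hk0, hl'0, hgi, hdvd, hG0, hlG, hGk, hOm⟩ :=
    hP n'.toNat s' (fun i => g i) (by omega) hn'1 hs'Q (by
      intro i hi
      have h1 := sz3 i (Nat.cast_nonneg i) (by exact_mod_cast hi)
      refine ⟨h1.1, ?_⟩
      rw [hn'c]
      exact id1 i)
  rw [hn'c] at hdvd hG0 hlG hGk hOm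
  -- the argument `t`
  obtain ⟨v, hv⟩ := hdvd
  obtain ⟨t, ht⟩ : ∃ t : ℤ, t = t0 + h * v := ⟨_, rfl⟩
  have hst : s' + n' * i + l' = 2 * a * t + b := by
    rw [ht]
    rw [hr] at hv
    linear_combination hv
  have hfG : Gf Δ (s' + n' * i + l') = 4 * a * (a * t ^ 2 + b * t + c) := by
    rw [hst, Gf_eq, hΔd]; ring
  have h4a0 : (0 : ℤ) < 4 * a := by linarith
  have hf0 : 0 < a * t ^ 2 + b * t + c := by
    rw [hfG] at hG0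
    exact pos_of_mul_pos_right hG0 h4a0.le
  have hiY : i ≤ Y := by omega
  have hkY : k ≤ Y := by omega
  -- sizes
  have hsz : (((L : ℤ) + 1) ^ 2 * (l : ℤ)) ^ 2 ≤ (((L : ℤ) + 1) ^ 2 * (2 * X)) ^ 2 := by
    have h1 : (l : ℤ) ≤ 2 * X := by exact_mod_cast hlX
    have h2 : ((L : ℤ) + 1) ^ 2 * (l : ℤ) ≤ ((L : ℤ) + 1) ^ 2 * (2 * X) :=
      mul_le_mul_of_nonneg_left h1 (by positivity)
    exact pow_le_pow_left₀ (by positivity) h2 2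
  have hsz2 : 2 * (1 + |Δ|) * ((Y : ℤ) + 1) ^ 2 * (((L : ℤ) + 1) ^ 2 * (l : ℤ)) ^ 2 ≤
      2 * (1 + |Δ|) * ((Y : ℤ) + 1) ^ 2 * (((L : ℤ) + 1) ^ 2 * (2 * X)) ^ 2 := by
    apply mul_le_mul_of_nonneg_left hsz
    have := abs_nonneg Δ
    positivity
  have hgiS := sz3 i (Nat.cast_nonneg i) (by exact_mod_cast hiY)
  have hl'g : l' ≤ g i := by
    have hk1 : (1 : ℤ) ≤ k := by exact_mod_cast hk0
    have : g i = k * l' := hgi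
    rw [this]
    exact le_mul_of_one_le_left hl'0.le hk1
  have hlX' : (X : ℤ) < l := by exact_mod_cast hXl
  have hni : 0 ≤ n' * i := by positivity
  have ht1 : 1 ≤ t := by
    have h1 : 2 * a * 1 ≤ 2 * a * t := by
      have : 2 * a * t = s' + n' * i + l' - b := by linarith
      rw [this]
      linarith [le_abs_self b]
    exact le_of_mul_le_mul_left h1 (by linarith)
  have htN : t ≤ N := by
    have h1 : t * 1 ≤ t * (2 * a) := mul_le_mul_of_nonneg_left (by linarith) (by linarith)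
    have h2 : 2 * a * t = s' + n' * i + l' - b := by linarith
    have h3 := hgiS.2.2
    have h4 := neg_abs_le b
    linarith
  have htt : ((t.toNat : ℕ) : ℤ) = t := Int.toNat_of_nonneg (by linarith)
  -- prime factors
  have hz1 : 1 ≤ 2 ^ (2 ^ n) := Nat.one_le_two_pow
  have hOmg : ∀ j : ℕ, j ≤ Y → Om (g j) ≤ D * E + B := by
    intro j hj
    have h1 := sz3 j (Nat.cast_nonneg j) (by exact_mod_cast hj)
    apply Om_le_of (g j) (2 ^ (2 ^ n)) D E B h1.1 hz1 (hp1 j hj) (hp2 j hj)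
    have h2 := h1.2.1
    linarith
  have hgi0 : 0 < g i := hgiS.1
  have hgk0 : 0 < g ((i + k : ℕ) : ℤ) :=
    (sz3 ((i + k : ℕ) : ℤ) (Nat.cast_nonneg _) (by exact_mod_cast hik)).1
  have hk0' : ((k : ℤ) ^ 2) ≠ 0 := by
    have : (k : ℤ) ≠ 0 := by exact_mod_cast hk0.ne'
    positivity
  have hOmG : Om (Gf Δ (s' + n' * i + l')) ≤ 2 * (D * E + B) := by
    have h1 := Om_mul hG0.ne' hk0'
    rw [hGk, Om_mul hgi0.ne' hgk0.ne'] at h1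
    have h2 := hOmg i hiY
    have h3 := hOmg (i + k) hik
    omega
  have hOmf : Om (Gf Δ (s' + n' * i + l')) = Om (4 * a) + Om (a * t ^ 2 + b * t + c) := by
    rw [hfG, Om_mul h4a0.ne' hf0.ne']
  refine ⟨i, k, t.toNat, x, l', hFr, ?_, hiY, hkY, hk0, hl'0, by rw [← hg]; exact hgi, ?_, ?_⟩
  · unfold goodA
    rw [Finset.mem_filter, Finset.mem_Icc, htt]
    refine ⟨⟨by omega, by omega⟩, ?_, hf0, by omega, ?_, ?_⟩
    · apply (Nat.modEq_iff_dvd.2 _).symm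
      rw [htt, ht]
      exact ⟨v, by ring⟩
    · rw [hOmf] at hOm
      push_cast at hOm
      linear_combination hOm
    · intro p hp hpf
      have h1 : (p : ℤ) ∣ g i * g ((i + k : ℕ) : ℤ) := by
        have h2 : (p : ℤ) ∣ Gf Δ (s' + n' * i + l') * (k : ℤ) ^ 2 := by
          rw [hfG]
          exact (hpf.mul_left _).mul_right _
        rw [hGk] at h2
        exact h2
      have h2 : ∀ j : ℕ, j ≤ Y → (p : ℤ) ∣ g j → p ≤ C ∨ (N : ℝ) ^ (1 / (C : ℝ)) < p := by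
        intro j hj hd
        rcases hp1 j hj p hp hd with h3 | h3
        · left; omega
        · right
          refine lt_of_le_of_lt hz ?_
          exact_mod_cast h3
      rcases (Nat.prime_iff_prime_int.1 hp).dvd_or_dvd h1 with h3 | h3
      · exact h2 i hiY h3
      · exact h2 (i + k) hik h3
  · rw [htt, ← hs']; exact hst.symm
  · rw [htt, ← hfG]; exact hlG

open Classical in
theorem count_mainA (hF : StFacts) (a b c : ℤ) (ha : 0 < a) (Δ : ℤ)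
    (hΔd : Δ = b ^ 2 - 4 * a * c) (hΔ : ¬ IsSquare Δ)
    (m : ℕ) (ρ : ZMod m) (t0 h r : ℕ) (hr : (r : ℤ) = 2 * a * h) (Y D E Q M L n X N B C : ℕ)
    (hP : PatQ Δ m (ρ + ((Om (4 * a) : ℕ) : ZMod m)) r (2 * a * t0 + b) Y Q)
    (hQ : 0 < Q) (hM : M = Q ^ 2) (hDY : 2 * (Y + 1) ≤ D) (hE : Y ^ 2 + Δ.natAbs < 2 ^ E)
    (hpQ : ∀ p : ℕ, p.Prime → p ≤ D → p ^ E ∣ Q) (hpQ' : ∀ p : ℕ, p.Prime → p ∣ Q → p ≤ D)
    (hL : 4 * (|Δ| + 1) * (Q : ℤ) ^ 2 + 4 ≤ (L : ℤ)) (hX : 2 * a + |b| ≤ (X : ℤ)) (hMX : M ≤ X)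
    (hB : 2 * (1 + |Δ|) * ((Y : ℤ) + 1) ^ 2 * (((L : ℤ) + 1) ^ 2 * (2 * X)) ^ 2 <
      ((2 ^ (2 ^ n)) ^ (B + 1) : ℕ))
    (hN : 2 * (1 + |Δ|) * ((Y : ℤ) + 1) ^ 2 * (((L : ℤ) + 1) ^ 2 * (2 * X)) ^ 2 + |b| ≤ (N : ℤ))
    (hC : 2 * (D * E + B) ≤ C) (hDC : D ≤ C)
    (hz : (N : ℝ) ^ (1 / (C : ℝ)) ≤ (2 : ℝ) ^ (2 ^ n)) :
    ∑ l ∈ (Finset.Ioc X (2 * X)).filter (fun p => p.Prime ∧ p ≡ 1 [MOD M]),
      (sftA Δ Q Y D L M l n).card ≤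
      (goodA a b c m ρ t0 h C N).card * ((Y + 1) * (Y + 1) * (2 ^ Om (4 * a) * 2 ^ C)) := by
  set PP := (Finset.Ioc X (2 * X)).filter (fun p => p.Prime ∧ p ≡ 1 [MOD M]) with hPP
  set Tr : Finset (Σ _ : ℕ, ℕ × ℕ) := PP.sigma (fun l => sftA Δ Q Y D L M l n) with hTr
  have hM0 : 0 < M := by rw [hM]; positivity
  have hcard : Tr.card = ∑ l ∈ PP, (sftA Δ Q Y D L M l n).card := Finset.card_sigma _ _
  rw [← hcard]
  set U : Finset (Σ _ : ℕ, (ℕ × ℕ) × ℕ) := (goodA a b c m ρ t0 h C N).sigma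
    (fun t => (Finset.range (Y + 1) ×ˢ Finset.range (Y + 1)) ×ˢ
      (4 * a * (a * (t : ℤ) ^ 2 + b * t + c)).natAbs.divisors) with hU
  have hcardU : U.card ≤ (goodA a b c m ρ t0 h C N).card *
      ((Y + 1) * (Y + 1) * (2 ^ Om (4 * a) * 2 ^ C)) := by
    rw [hU, Finset.card_sigma]
    refine (Finset.sum_le_card_nsmul _ _ ((Y + 1) * (Y + 1) * (2 ^ Om (4 * a) * 2 ^ C)) ?_).trans
      (le_of_eq (by rw [smul_eq_mul]))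
    intro t ht
    rw [Finset.card_product, Finset.card_product, Finset.card_range]
    apply Nat.mul_le_mul_left
    unfold goodA at ht
    rw [Finset.mem_filter] at ht
    obtain ⟨_, _, hf0, hfB, _⟩ := ht
    have h4a : (4 * a : ℤ) ≠ 0 := by linarith
    have h0 : 4 * a * (a * (t : ℤ) ^ 2 + b * t + c) ≠ 0 := mul_ne_zero h4a hf0.ne'
    have h1 := card_divisors_le _ (Int.natAbs_ne_zero.2 h0)
    have h2 : ArithmeticFunction.cardFactors (4 * a * (a * (t : ℤ) ^ 2 + b * t + c)).natAbs =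
        Om (4 * a) + Om (a * (t : ℤ) ^ 2 + b * t + c) := Om_mul h4a hf0.ne'
    rw [h2, pow_add] at h1
    exact h1.trans (Nat.mul_le_mul_left _ (Nat.pow_le_pow_right (by norm_num) hfB))
  refine le_trans ?_ hcardU
  have hone : ∀ σ : (Σ _ : ℕ, ℕ × ℕ), σ ∈ Tr → ∃ (i k t : ℕ) (x l' : ℤ),
      Fr Δ Q L σ.1 σ.2.1 σ.2.2 x ∧ t ∈ goodA a b c m ρ t0 h C N ∧
      i ≤ Y ∧ k ≤ Y ∧ 0 < k ∧ 0 < l' ∧ gF Δ Q σ.1 σ.2.1 σ.2.2 x i = k * l' ∧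
      2 * a * (t : ℤ) + b = sF Δ Q σ.1 σ.2.1 σ.2.2 x + nF Δ Q σ.1 σ.2.1 * i + l' ∧
      l' ∣ 4 * a * (a * (t : ℤ) ^ 2 + b * t + c) := by
    intro σ hσ
    rw [hTr, Finset.mem_sigma, hPP, mem_filter, Finset.mem_Ioc] at hσ
    obtain ⟨⟨⟨h1, h2⟩, h3, h4⟩, h5⟩ := hσ
    exact one_pointA hF a b c ha Δ hΔd hΔ m ρ t0 h r hr Y D E Q M L n X N B C hP hQ hM hDY hE hpQ
      hpQ' hL hX hB hN hC hDC hz σ.1 h3 (fun hd => by
        have := Nat.le_of_dvd hM0 hd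
        omega) h1 h2 σ.2 h5
  choose! I K T x L' h1 h2 h3 h4 h5 h6 h7 h8 h9 using hone
  apply Finset.card_le_card_of_injOn
    (fun σ => (⟨T σ, ((I σ, K σ), (L' σ).natAbs)⟩ : Σ _ : ℕ, (ℕ × ℕ) × ℕ))
  · intro σ hσ
    have hg := h2 σ hσ
    rw [mem_coe, hU, Finset.mem_sigma]
    refine ⟨hg, ?_⟩
    rw [Finset.mem_product, Finset.mem_product, Nat.mem_divisors]
    unfold goodA at hg
    rw [Finset.mem_filter] at hg
    obtain ⟨_, _, hf0, _⟩ := hg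
    refine ⟨⟨Finset.mem_range.2 (Nat.lt_succ_of_le (h3 σ hσ)),
      Finset.mem_range.2 (Nat.lt_succ_of_le (h4 σ hσ))⟩, Int.natAbs_dvd_natAbs.2 (h9 σ hσ), ?_⟩
    apply Int.natAbs_ne_zero.2
    apply mul_ne_zero (by linarith) hf0.ne'
  · rintro σ hσ σ' hσ' heq
    rw [mem_coe] at hσ hσ'
    have a1 := h1 σ hσ
    have a5 := h5 σ hσ
    have a6 := h6 σ hσ
    have a7 := h7 σ hσ
    have a8 := h8 σ hσ
    have b1 := h1 σ' hσ'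
    have b6 := h6 σ' hσ'
    have b7 := h7 σ' hσ'
    have b8 := h8 σ' hσ'
    simp only [Sigma.mk.injEq, heq_eq_eq, Prod.mk.injEq] at heq
    obtain ⟨hT, ⟨hI, hK⟩, hLL⟩ := heq
    have hLL' : L' σ = L' σ' := by omega
    rw [← hT, ← hI, ← hLL'] at b8
    rw [← hI, ← hK, ← hLL'] at b7
    obtain ⟨id1, _, _⟩ := stIdent_99 _ _ _ _ _ _ _ a1
    obtain ⟨id1', _, _⟩ := stIdent_99 _ _ _ _ _ _ _ b1
    have c1 := id1 (I σ)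
    have c2 := id1' (I σ)
    have e1 : sF Δ Q σ.1 σ.2.1 σ.2.2 (x σ) + nF Δ Q σ.1 σ.2.1 * (I σ) =
        sF Δ Q σ'.1 σ'.2.1 σ'.2.2 (x σ') + nF Δ Q σ'.1 σ'.2.1 * (I σ) := by linarith
    rw [← e1, c1, a7, b7] at c2
    have hkl : ((K σ : ℕ) : ℤ) * L' σ ≠ 0 :=
      mul_ne_zero (by exact_mod_cast a5.ne') a6.ne'
    have hnn : nF Δ Q σ.1 σ.2.1 = nF Δ Q σ'.1 σ'.2.1 := mul_right_cancel₀ hkl c2
    have hss : sF Δ Q σ.1 σ.2.1 σ.2.2 (x σ) = sF Δ Q σ'.1 σ'.2.1 σ'.2.2 (x σ') := by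
      rw [hnn] at e1
      linarith
    rw [hTr, Finset.mem_sigma, hPP, mem_filter, Finset.mem_Ioc] at hσ hσ'
    obtain ⟨⟨⟨d1, d2⟩, d3, _⟩, _⟩ := hσ
    obtain ⟨⟨⟨d1', d2'⟩, d3', _⟩, _⟩ := hσ'
    obtain ⟨f1, f2, f3⟩ := stUniq_99 Δ Q L σ.1 σ.2.1 σ.2.2 (x σ) σ'.1 σ'.2.1 σ'.2.2 (x σ')
      (2 * (X : ℤ)) a1 b1 hnn hss (by exact_mod_cast d2) (by exact_mod_cast d2')
      (by have : (X : ℤ) < σ.1 := by exact_mod_cast d1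
          linarith)
      (Nat.prime_iff_prime_int.1 d3) (Nat.prime_iff_prime_int.1 d3')
    have g1 : σ.1 = σ'.1 := by exact_mod_cast f1
    have g2 : σ.2.1 = σ'.2.1 := by exact_mod_cast f2
    have g3 : σ.2.2 = σ'.2.2 := by exact_mod_cast f3
    exact Sigma.ext g1 (heq_of_eq (Prod.ext g2 g3))

end Pool.Agent.Lib.MP_a17b09_nt.AM
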