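import Pool.Agent.Lib.MP_a17b09_nt.AM.Stmts

/-!
Identities, sizes and uniqueness for the balanced pairs of vectors.
-/

set_option autoImplicit false

namespace Pool.Agent.Lib.MP_a17b09_nt.AM

open Finset Pool.Agent.Lib.QuadParity Pool.Agent.MP_a17b09_nt.OM Pool.Agent.Lib.MP_a17b09_nt.BP

theorem stIdent_99 : StIdent := by
  intro Δ Q L l u y x h
  have h1 := h.h
  refine ⟨?_, ?_, ?_⟩
  · intro i
    rw [Gf_eq]
    unfold sF nF gF
    linear_combination (Δ * (u * y - Q * l * x + 1)) * h1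
  · intro i
    have e1 : u * (y + i * (Q * l)) - 1 = (Q * l) * (x + i * u) := by linear_combination h1
    unfold wF gF
    rw [e1]; ring
  · unfold sF nF
    linear_combination (-u) * h1

namespace Fr

variable {Δ Q L l u y x : ℤ}

theorem L8 (h : Fr Δ Q L l u y x) : 8 ≤ L := by
  have h1 := h.hL
  have h2 := h.hQ
  have h3 := abs_nonneg Δ
  have h4 : 1 ≤ Q ^ 2 := by nlinarith
  nlinarith

theorem lu (h : Fr Δ Q L l u y x) : 8 * l ≤ u := by
  have h1 := h.L8
  have h2 := h.hu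
  have h3 := h.hl
  nlinarith

theorem ly (h : Fr Δ Q L l u y x) : 8 * l ≤ y := by
  have h1 := h.L8
  have h2 := h.hy
  have h3 := h.hl
  nlinarith

theorem uQ (h : Fr Δ Q L l u y x) : 4 * (|Δ| + 1) * (Q * l) ≤ u := by
  have h1 := h.hL
  have h2 := h.hQ
  have h3 := abs_nonneg Δ
  have h4 := h.hl
  have h5 := h.hu
  have h6 : Q ≤ Q ^ 2 := by nlinarith
  have h7 : 4 * (|Δ| + 1) * Q ≤ L := by
    have : 4 * (|Δ| + 1) * Q ≤ 4 * (|Δ| + 1) * Q ^ 2 := mul_le_mul_of_nonneg_left h6 (by linarith)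
    linarith
  calc 4 * (|Δ| + 1) * (Q * l) = (4 * (|Δ| + 1) * Q) * l := by ring
    _ ≤ L * l := mul_le_mul_of_nonneg_right h7 (by linarith)
    _ ≤ u := h5

theorem xy (h : Fr Δ Q L l u y x) : 4 * (|Δ| + 1) * y ≤ x := by
  have h1 := h.hL
  have h2 := h.hQ
  have h3 := abs_nonneg Δ
  have h4 := h.hl
  have h5 := h.hu
  have h6 := h.ly
  have h7 := h.h
  have hy0 : 1 ≤ y := by linarith
  have e1 : (4 * (|Δ| + 1) * Q ^ 2 + 4) * l ≤ u :=
    le_trans (mul_le_mul_of_nonneg_right h1 (by linarith)) h5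
  have e2 : (4 * (|Δ| + 1) * Q ^ 2 + 4) * l * y ≤ u * y :=
    mul_le_mul_of_nonneg_right e1 (by linarith)
  have e3 : 1 ≤ l * y := one_le_mul_of_one_le_of_one_le h4 hy0
  have hQl : 0 < Q * l := mul_pos (lt_of_lt_of_le one_pos h2) (lt_of_lt_of_le one_pos h4)
  have e4 : (Q * l) * (4 * (|Δ| + 1) * (Q * y)) ≤ (Q * l) * x := by nlinarith
  have e5 := le_of_mul_le_mul_left e4 hQl
  have e6 : 4 * (|Δ| + 1) * y ≤ 4 * (|Δ| + 1) * (Q * y) := by
    apply mul_le_mul_of_nonneg_left _ (by linarith only [h3])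
    exact le_mul_of_one_le_left (zero_le_one.trans hy0) h2
  linarith only [e5, e6]

theorem x_up (h : Fr Δ Q L l u y x) : x ≤ (L + 1) ^ 2 * l := by
  have h1 := h.hu'
  have h2 := h.hy'
  have h3 := h.hl
  have h4 := h.h
  have h5 := h.hQ
  have h6 := h.ly
  have h7 := h.lu
  have h8 := h.xy
  have h9 := h.L8
  have h10 := abs_nonneg Δ
  have hy0 : 0 ≤ y := by linarith only [h6, h3]
  have hx0 : 0 ≤ x := le_trans (by positivity) h8
  have e1 : u * y ≤ ((L + 1) * l) * ((L + 1) * l) :=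
    mul_le_mul (by linarith only [h1]) (by linarith only [h2]) hy0
      (mul_nonneg (by linarith only [h9]) (by linarith only [h3]))
  have e2 : l * x ≤ Q * l * x := by
    have h11 : 0 ≤ l * x := mul_nonneg (by linarith only [h3]) hx0
    have h12 := mul_le_mul_of_nonneg_right h5 h11
    linarith only [h12]
  have e3 : l * x ≤ l * ((L + 1) ^ 2 * l) := by nlinarith
  exact le_of_mul_le_mul_left e3 (by linarith)

/-- the general lower bound -/
theorem low (A B : ℤ) (hB : 0 ≤ B) (hAB : 4 * (|Δ| + 1) * B ≤ A) :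
    A ^ 2 ≤ 2 * (A ^ 2 - Δ * B ^ 2) := by
  have h3 := abs_nonneg Δ
  have h4 := le_abs_self Δ
  have hA : 0 ≤ A := le_trans (by positivity) hAB
  have e0 : 0 ≤ |Δ| * B := mul_nonneg h3 hB
  have e1 : B ≤ A := by linarith only [e0, hAB, hB]
  have e2 : 2 * (|Δ| * B) ≤ A := by linarith only [e0, hAB, hB]
  have e3 : 2 * (|Δ| * B) * B ≤ A * A := mul_le_mul e2 e1 hB hA
  have e4 : Δ * B ^ 2 ≤ |Δ| * B ^ 2 := mul_le_mul_of_nonneg_right h4 (by positivity)
  nlinarith

theorem up (A B : ℤ) (hB : 0 ≤ B) (hAB : B ≤ A) :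
    A ^ 2 - Δ * B ^ 2 ≤ (1 + |Δ|) * A ^ 2 := by
  have h3 := abs_nonneg Δ
  have h4 := neg_abs_le Δ
  have e1 : B ^ 2 ≤ A ^ 2 := pow_le_pow_left₀ hB hAB 2
  have e2 : -(Δ * B ^ 2) ≤ |Δ| * B ^ 2 := by nlinarith [sq_nonneg B]
  have e3 : |Δ| * B ^ 2 ≤ |Δ| * A ^ 2 := mul_le_mul_of_nonneg_left e1 h3
  nlinarith

end Fr

theorem stSize_99 : StSize := by
  intro Δ Q L l u y x h Y
  have hΔ := abs_nonneg Δ
  have hl := h.hl
  have hQ := h.hQ
  have hlu := h.lu
  have hly := h.ly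
  have huQ := h.uQ
  have hxy := h.xy
  have hxup := h.x_up
  have hL8 := h.L8
  have hu' := h.hu'
  have hQl : 1 ≤ Q * l := one_le_mul_of_one_le_of_one_le hQ hl
  have hu0 : 0 < u := by linarith
  have hy0 : 0 < y := by linarith
  have hx0 : 0 < x := lt_of_lt_of_le (by positivity) hxy
  have hylx : y ≤ x := (le_mul_of_one_le_left hy0.le (by linarith only [hΔ])).trans hxy
  have hQl0 : 0 ≤ Q * l := zero_le_one.trans hQl
  have hQlu : Q * l ≤ u := (le_mul_of_one_le_left hQl0 (by linarith only [hΔ])).trans huQ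
  obtain ⟨S, hS⟩ : ∃ S : ℤ, S = (L + 1) ^ 2 * l := ⟨_, rfl⟩
  rw [← hS] at hxup ⊢
  have huS : u ≤ S := by
    rw [hS]
    have : L + 1 ≤ (L + 1) ^ 2 := le_self_pow₀ (by linarith only [hL8]) two_ne_zero
    have := mul_le_mul_of_nonneg_right this (by linarith : (0 : ℤ) ≤ l)
    linarith
  have hS0 : 0 < S := by linarith
  have hn1 : u ^ 2 ≤ 2 * nF Δ Q l u := Fr.low u (Q * l) (by linarith) huQ
  have hn2 : nF Δ Q l u ≤ (1 + |Δ|) * u ^ 2 := Fr.up u (Q * l) (by linarith) hQlu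
  -- s
  have hs1 : u * x ≤ 2 * sF Δ Q l u y x := by
    have e1 : Δ * ((Q * l) * y) ≤ |Δ| * ((Q * l) * y) :=
      mul_le_mul_of_nonneg_right (le_abs_self Δ) (by positivity)
    have e2 : 2 * (|Δ| * (Q * l)) ≤ u := by linarith only [huQ, mul_nonneg hΔ hQl0, hQl0]
    have e3 : 2 * (|Δ| * (Q * l)) * y ≤ u * x := mul_le_mul e2 hylx hy0.le hu0.le
    unfold sF
    linarith only [e1, e3]
  have hs2 : sF Δ Q l u y x ≤ (1 + |Δ|) * (u * x) := by
    have e1 : -(Δ * ((Q * l) * y)) ≤ |Δ| * ((Q * l) * y) := by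
      have h0 : 0 ≤ (Q * l) * y := mul_nonneg hQl0 hy0.le
      linarith only [mul_le_mul_of_nonneg_right (neg_abs_le Δ) h0]
    have e2 : (Q * l) * y ≤ u * x := mul_le_mul hQlu hylx hy0.le hu0.le
    have e3 := mul_le_mul_of_nonneg_left e2 hΔ
    unfold sF
    linarith only [e1, e3]
  refine ⟨?_, ?_, ?_⟩
  · have h64 := pow_le_pow_left₀ (by linarith only [hl] : 0 ≤ 8 * l) hlu 2
    have hl2 : 0 < l ^ 2 := pow_pos (by linarith only [hl]) 2
    linarith only [h64, hl2, hn1]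
  · have : l * 1 ≤ u * x := mul_le_mul (by linarith) (by linarith) (by norm_num) hu0.le
    have e2 : 2 * l ≤ u * x := by
      have h2 := mul_le_mul_of_nonneg_left (show (1 : ℤ) ≤ x from hx0) hu0.le
      linarith only [h2, hlu, hl]
    linarith
  · intro i hi hiY
    have hA0 : 0 < x + i * u := by
      have : 0 ≤ i * u := mul_nonneg hi hu0.le
      linarith
    have hB0 : 0 ≤ y + i * (Q * l) := by
      have : 0 ≤ i * (Q * l) := mul_nonneg hi (by linarith)
      linarith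
    have hAB : 4 * (|Δ| + 1) * (y + i * (Q * l)) ≤ x + i * u := by
      have e1 := mul_le_mul_of_nonneg_left huQ hi
      linarith only [e1, hxy]
    have hBA : y + i * (Q * l) ≤ x + i * u :=
      add_le_add hylx (mul_le_mul_of_nonneg_left hQlu hi)
    have hg1 : (x + i * u) ^ 2 ≤ 2 * gF Δ Q l u y x i := Fr.low _ _ hB0 hAB
    have hg2 : gF Δ Q l u y x i ≤ (1 + |Δ|) * (x + i * u) ^ 2 := Fr.up _ _ hB0 hBA
    have hY0 : (0 : ℤ) ≤ Y := Nat.cast_nonneg Y
    have hAS : x + i * u ≤ (Y + 1) * S := by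
      have e1 : i * u ≤ Y * S := mul_le_mul hiY huS hu0.le hY0
      linarith
    have hAS2 : (x + i * u) ^ 2 ≤ ((Y + 1) * S) ^ 2 := pow_le_pow_left₀ hA0.le hAS 2
    have hS2 : 0 ≤ S ^ 2 := by positivity
    have hg3 : gF Δ Q l u y x i ≤ (1 + |Δ|) * ((Y + 1) ^ 2 * S ^ 2) := by
      have := mul_le_mul_of_nonneg_left hAS2 (by linarith : (0 : ℤ) ≤ 1 + |Δ|)
      rw [mul_pow] at this
      linarith
    have hsn : sF Δ Q l u y x + nF Δ Q l u * i ≤ (1 + |Δ|) * ((Y + 1) ^ 2 * S ^ 2) := by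
      have e1 : u * x ≤ S ^ 2 := by
        rw [sq]; exact mul_le_mul huS hxup hx0.le hS0.le
      have e2 : u ^ 2 ≤ S ^ 2 := pow_le_pow_left₀ hu0.le huS 2
      have e3 : nF Δ Q l u * i ≤ ((1 + |Δ|) * S ^ 2) * Y := by
        apply mul_le_mul _ hiY hi (by positivity)
        exact hn2.trans (mul_le_mul_of_nonneg_left e2 (by linarith))
      have e4 : (1 + |Δ|) * (u * x) ≤ (1 + |Δ|) * S ^ 2 :=
        mul_le_mul_of_nonneg_left e1 (by linarith)
      have e5 : (1 + |Δ|) * S ^ 2 * (Y + 1) ≤ (1 + |Δ|) * S ^ 2 * (Y + 1) ^ 2 := by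
        apply mul_le_mul_of_nonneg_left _ (by positivity)
        exact le_self_pow₀ (by linarith only [hY0]) two_ne_zero
      linarith only [hs2, e3, e4, e5]
    have e6 : 2 * (1 + |Δ|) * ((Y : ℤ) + 1) ^ 2 * S ^ 2 =
        (1 + |Δ|) * ((Y + 1) ^ 2 * S ^ 2) + (1 + |Δ|) * ((Y + 1) ^ 2 * S ^ 2) := by ring
    have e7 : 0 ≤ (1 + |Δ|) * (((Y : ℤ) + 1) ^ 2 * S ^ 2) := by positivity
    refine ⟨?_, ?_, ?_⟩
    · have : 0 < (x + i * u) ^ 2 := by positivity
      linarith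
    · rw [e6]; linarith
    · rw [e6]; linarith

theorem stUniq_99 : StUniq := by
  intro Δ Q L l u y x l' u' y' x' X h h' hn hs hX hX' hX2 hp hp'
  obtain ⟨_, _, d1⟩ := stIdent_99 Δ Q L l u y x h
  obtain ⟨_, _, d2⟩ := stIdent_99 Δ Q L l' u' y' x' h'
  obtain ⟨hlow0, _, _⟩ := stSize_99 Δ Q L l u y x h 0
  rw [← hn, ← hs] at d2
  obtain ⟨n, hn'⟩ : ∃ n : ℤ, n = nF Δ Q l u := ⟨_, rfl⟩
  obtain ⟨s, hs'⟩ : ∃ s : ℤ, s = sF Δ Q l u y x := ⟨_, rfl⟩
  rw [← hn'] at d1 d2 hlow0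
  rw [← hs'] at d1 d2
  have h1 := h.hl
  have h2 := h'.hl
  have h3 := h.hu
  have h4 := h.hu'
  have h5 := h'.hu
  have h6 := h'.hu'
  have hdiv : u * l' - u' * l = n * (y * l' - y' * l) := by
    linear_combination l' * d1 - l * d2
  have hl0 : 0 < l := by linarith only [h1]
  have hl'0 : 0 < l' := by linarith only [h2]
  have hX0 : 0 ≤ X := by linarith only [hX, h1]
  have hlow : X ^ 2 < n := by
    have h7 := pow_le_pow_left₀ hX0 hX2 2
    linarith only [h7, hlow0]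
  have hup : |u * l' - u' * l| < X ^ 2 := by
    have e0 : l * l' ≤ X ^ 2 := by
      rw [sq]
      exact mul_le_mul hX hX' hl'0.le hX0
    have e1 : u * l' - u' * l < l * l' := by
      have f1 := mul_lt_mul_of_pos_right h4 hl'0
      have f2 := mul_le_mul_of_nonneg_right h5 hl0.le
      linarith only [f1, f2]
    have e2 : -(l * l') < u * l' - u' * l := by
      have f1 := mul_le_mul_of_nonneg_right h3 hl'0.le
      have f2 := mul_lt_mul_of_pos_right h6 hl0
      linarith only [f1, f2]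
    rw [abs_lt]
    constructor <;> linarith only [e0, e1, e2]
  have hz : y * l' - y' * l = 0 := by
    by_contra hne
    have h8 : 1 ≤ |y * l' - y' * l| := Int.one_le_abs hne
    rw [hdiv, abs_mul] at hup
    have hn0 : 0 < n := lt_of_le_of_lt (sq_nonneg X) hlow
    have h9 : |n| = n := abs_of_pos hn0
    rw [h9] at hup
    have h10 := le_mul_of_one_le_right hn0.le h8
    linarith only [h10, hup, hlow]
  have hz2 : u * l' - u' * l = 0 := by rw [hdiv, hz, mul_zero]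
  have hlu : ¬ l ∣ u := by
    intro hcon
    have h8 : l ∣ 1 := by
      rw [← h.h]
      refine dvd_sub (hcon.mul_right y) ?_
      exact ⟨Q * x, by ring⟩
    exact hp.not_isUnit (isUnit_of_dvd_one h8)
  have hll : l ∣ l' := by
    have h8 : l ∣ u * l' := ⟨u', by linarith⟩
    exact (hp.dvd_or_dvd h8).resolve_left hlu
  have hll' : l = l' := by
    obtain ⟨t, ht⟩ := hll
    have hirr := hp'.irreducible
    rcases (hirr.isUnit_or_isUnit ht) with h8 | h8
    · exact absurd h8 hp.not_isUnit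
    · rcases Int.isUnit_iff.1 h8 with h9 | h9
      · rw [ht, h9, mul_one]
      · rw [h9] at ht; linarith
  subst hll'
  have hl0 : l ≠ 0 := hl0.ne'
  refine ⟨rfl, ?_, ?_⟩
  · exact mul_right_cancel₀ hl0 (by linarith)
  · exact mul_right_cancel₀ hl0 (by linarith)

end Pool.Agent.Lib.MP_a17b09_nt.AM
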